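import Mathlib

/-!
# ISO/Defs: isotopies of curves in a vector space modulo a lattice

`Λ` is a discrete group of translations of `E` (`0`, `Z (0, 1)`, `Z² × 0`, ...), `O` an open set.
`Move Λ O F`: `F` is a diffeomorphism of `E` which commutes with the translations by `Λ` and is the identity off
`C + Λ`, `C` compact, `C ⊆ O`.
-/

open scoped ContDiff Topology
open Set Filter

namespace Pool.Agent.ISO

variable {E : Type*} [NormedAddCommGroup E] [NormedSpace ℝ E]

/-- `Λ` is discrete: finitely many elements in every ball. -/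
def Lat (Λ : AddSubgroup E) : Prop := ∀ R : ℝ, {m : E | m ∈ Λ ∧ ‖m‖ ≤ R}.Finite

/-- compactly supported diffeomorphism (modulo `Λ`), the support is contained in `O` (modulo `Λ`) -/
structure Move (Λ : AddSubgroup E) (O : Set E) (F : Equiv.Perm E) : Prop where
  smooth : ContDiff ℝ ∞ F
  smooth_symm : ContDiff ℝ ∞ F.symm
  comm : ∀ m ∈ Λ, ∀ x, F (x + m) = F x + m
  supp : ∃ C : Set E, IsCompact C ∧ C ⊆ O ∧ ∀ x, (∀ m ∈ Λ, x + m ∉ C) → F x = x

end Pool.Agent.ISO
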