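import Pool.Agent.ISO.Field

/-!
# ISO/Core: the isotopy extension theorem for curves
-/

open scoped ContDiff Topology
open Set Filter

namespace Pool.Agent.ISO

variable {E : Type*} [NormedAddCommGroup E] [NormedSpace ℝ E] [FiniteDimensional ℝ E]

/-- small steps, all parameters `s` -/
theorem steps {Λ : AddSubgroup E} (hΛ : Lat Λ) {O : Set E} (hO : IsOpen O) {k : ℝ → ℝ → E}
    (hk : ContDiff ℝ ∞ fun q : ℝ × ℝ => k q.1 q.2) {J : Set ℝ}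
    (himm : ∀ s, ∀ l ∈ J, deriv (k s) l ≠ 0)
    (hred : ∀ s₀, ∀ l₀ ∈ J, ∃ J₀ : Set ℝ, IsCompact J₀ ∧ J₀ ⊆ J ∧
      (∀ l ∈ J, ∃ l₁ ∈ J₀, ∃ m ∈ Λ, ∀ s, k s l = k s l₁ + m) ∧
      ∀ l₁ ∈ J₀, ∀ m ∈ Λ, k s₀ l₁ = k s₀ l₀ + m → l₁ = l₀)
    {J₁ : Set ℝ} (hJ₁ : IsCompact J₁) (hJO : ∀ s, ∀ l ∈ J₁, k s l ∈ O)
    (hJ : ∀ l ∈ J, (∀ s s', k s l = k s' l) ∨ ∃ l₁ ∈ J₁, ∃ m ∈ Λ, ∀ s, k s l = k s l₁ + m) (s s' : ℝ) :
    ∃ F : Equiv.Perm E, Move Λ O F ∧ ∀ l ∈ J, F (k s l) = k s' l := by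
  refine isPreconnected_univ.induction₂
    (fun s s' => ∃ F : Equiv.Perm E, Move Λ O F ∧ ∀ l ∈ J, F (k s l) = k s' l) ?_ ?_ ?_
    (mem_univ s) (mem_univ s')
  · intro s₀ _
    rw [nhdsWithin_univ]
    refine step hΛ hO hk s₀ (himm s₀) (hred s₀) hJ₁ (hJO s₀) ?_
    intro l hl
    rcases hJ l hl with h | ⟨l₁, hl₁, m, hm, h⟩
    · left; exact fun s => h s s₀
    · right; exact ⟨l₁, hl₁, m, hm, h s₀⟩
  · rintro s₁ s₂ s₃ - - - ⟨F, f1, f2⟩ ⟨G, g1, g2⟩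
    refine ⟨F.trans G, f1.trans g1, ?_⟩
    intro l hl
    rw [Equiv.trans_apply, f2 l hl, g2 l hl]
  · rintro s₁ s₂ - - ⟨F, f1, f2⟩
    refine ⟨F.symm, f1.symm, ?_⟩
    intro l hl
    rw [Equiv.symm_apply_eq, f2 l hl]

/-- **Isotopy extension for arcs.** -/
theorem core_arc {Λ : AddSubgroup E} (hΛ : Lat Λ) {O : Set E} (hO : IsOpen O) {k : ℝ → ℝ → E}
    {a₀ a a' b' b b₀ : ℝ} (h0 : a₀ < a) (h1 : a < a') (h2 : b' < b) (h3 : b < b₀)
    (hk : ∀ s ∈ Icc (0 : ℝ) 1, ∀ l ∈ Ioo a₀ b₀, ContDiffAt ℝ ∞ (fun q : ℝ × ℝ => k q.1 q.2) (s, l))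
    (hend : ∀ s ∈ Icc (0 : ℝ) 1, ∀ l ∈ Icc a b, l ≤ a' ∨ b' ≤ l → k s l = k 0 l)
    (hkO : ∀ s ∈ Icc (0 : ℝ) 1, ∀ l ∈ Icc a' b', k s l ∈ O)
    (himm : ∀ s ∈ Icc (0 : ℝ) 1, ∀ l ∈ Icc a b, deriv (k s) l ≠ 0)
    (hinj : ∀ s ∈ Icc (0 : ℝ) 1, ∀ l ∈ Icc a b, ∀ l' ∈ Icc a b, ∀ m ∈ Λ,
      k s l = k s l' + m → l = l') :
    ∃ F : Equiv.Perm E, Move Λ O F ∧ ∀ l ∈ Icc a b, F (k 0 l) = k 1 l := by
  have hσ : ∀ s, Real.smoothTransition s ∈ Icc (0 : ℝ) 1 := fun s =>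
    ⟨Real.smoothTransition.nonneg s, Real.smoothTransition.le_one s⟩
  obtain ⟨χ, C, c1, c2, c3, c4, c5, -⟩ := exists_cut (E := ℝ) (isOpen_Ioo (a := a₀) (b := b₀))
    (isCompact_Icc (a := (a₀ + a) / 2) (b := (b + b₀) / 2))
    (fun x hx => ⟨by linarith [hx.1], by linarith [hx.2]⟩)
  have hχ : ∀ l ∈ Icc a b, χ l = 1 := fun l hl => c5 l ⟨by linarith [hl.1], by linarith [hl.2]⟩
  let k' : ℝ → ℝ → E := fun s l => χ l • k (Real.smoothTransition s) l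
  have hk'e : ∀ s, ∀ l ∈ Icc a b, k' s l = k (Real.smoothTransition s) l := by
    intro s l hl
    simp only [k', hχ l hl, one_smul]
  have hk' : ContDiff ℝ ∞ fun q : ℝ × ℝ => k' q.1 q.2 := by
    rw [contDiff_iff_contDiffAt]
    rintro ⟨s, l⟩
    by_cases hl : l ∈ Ioo a₀ b₀
    · refine ContDiffAt.smul (c1.comp contDiff_snd).contDiffAt ?_
      have e1 : ContDiffAt ℝ ∞ (fun q : ℝ × ℝ => (Real.smoothTransition q.1, q.2)) (s, l) :=
        ((Real.smoothTransition.contDiff.comp contDiff_fst).prodMk contDiff_snd).contDiffAt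
      exact ContDiffAt.comp (s, l) (hk _ (hσ s) l hl) e1
    · have e1 : Cᶜ ∈ 𝓝 l := c2.isClosed.isOpen_compl.mem_nhds fun hc => hl (c3 hc)
      have e2 : ∀ᶠ q : ℝ × ℝ in 𝓝 (s, l), q.2 ∈ Cᶜ :=
        (continuousAt_snd (p := (s, l))).eventually e1
      have e3 : (fun q : ℝ × ℝ => k' q.1 q.2) =ᶠ[𝓝 (s, l)] fun _ => (0 : E) := by
        filter_upwards [e2] with q hq
        simp only [k', c4 _ hq, zero_smul]
      exact contDiffAt_const.congr_of_eventuallyEq e3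
  have hder : ∀ s, ∀ l ∈ Icc a b, deriv (k' s) l = deriv (k (Real.smoothTransition s)) l := by
    intro s l hl
    apply Filter.EventuallyEq.deriv_eq
    have e1 : Ioo ((a₀ + a) / 2) ((b + b₀) / 2) ∈ 𝓝 l :=
      isOpen_Ioo.mem_nhds ⟨by linarith [hl.1], by linarith [hl.2]⟩
    filter_upwards [e1] with y hy
    simp only [k']
    rw [c5 y ⟨hy.1.le, hy.2.le⟩, one_smul]
  have hsub : ∀ l ∈ Icc a' b', l ∈ Icc a b := fun l hl => ⟨by linarith [hl.1], by linarith [hl.2]⟩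
  obtain ⟨F, f1, f2⟩ := steps hΛ hO hk' (J := Icc a b) (J₁ := Icc a' b')
    (fun s l hl => by rw [hder s l hl]; exact himm _ (hσ s) l hl)
    (fun s₀ l₀ hl₀ => ⟨Icc a b, isCompact_Icc, Subset.rfl,
      fun l hl => ⟨l, hl, 0, Λ.zero_mem, fun s => by rw [add_zero]⟩,
      fun l₁ hl₁ m hm he => by
        rw [hk'e s₀ l₁ hl₁, hk'e s₀ l₀ hl₀] at he
        exact hinj _ (hσ s₀) l₁ hl₁ l₀ hl₀ m hm he⟩)
    isCompact_Icc
    (fun s l hl => by rw [hk'e s l (hsub l hl)]; exact hkO _ (hσ s) l hl)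
    (fun l hl => by
      by_cases hc : l ≤ a' ∨ b' ≤ l
      · left
        intro s s'
        rw [hk'e s l hl, hk'e s' l hl, hend _ (hσ s) l hl hc, hend _ (hσ s') l hl hc]
      · right
        rw [not_or, not_le, not_le] at hc
        exact ⟨l, ⟨hc.1.le, hc.2.le⟩, 0, Λ.zero_mem, fun s => by rw [add_zero]⟩) 0 1
  refine ⟨F, f1, ?_⟩
  intro l hl
  have e1 := f2 l hl
  rw [hk'e 0 l hl, hk'e 1 l hl, Real.smoothTransition.zero, Real.smoothTransition.one] at e1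
  exact e1

/-- **Isotopy extension for closed curves.** -/
theorem core_loop {Λ : AddSubgroup E} (hΛ : Lat Λ) {O : Set E} (hO : IsOpen O) {k : ℝ → ℝ → E}
    (hk : ∀ s ∈ Icc (0 : ℝ) 1, ∀ l, ContDiffAt ℝ ∞ (fun q : ℝ × ℝ => k q.1 q.2) (s, l))
    {m₀ : E} (hm₀ : m₀ ∈ Λ) (hper : ∀ s ∈ Icc (0 : ℝ) 1, ∀ l, k s (l + 1) = k s l + m₀)
    (hkO : ∀ s ∈ Icc (0 : ℝ) 1, ∀ l, k s l ∈ O)
    (himm : ∀ s ∈ Icc (0 : ℝ) 1, ∀ l, deriv (k s) l ≠ 0)
    (hinj : ∀ s ∈ Icc (0 : ℝ) 1, ∀ l l', ∀ m ∈ Λ, k s l = k s l' + m → ∃ p : ℤ, l = l' + p) :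
    ∃ F : Equiv.Perm E, Move Λ O F ∧ ∀ l, F (k 0 l) = k 1 l := by
  have hσ : ∀ s, Real.smoothTransition s ∈ Icc (0 : ℝ) 1 := fun s =>
    ⟨Real.smoothTransition.nonneg s, Real.smoothTransition.le_one s⟩
  let k' : ℝ → ℝ → E := fun s l => k (Real.smoothTransition s) l
  have hk' : ContDiff ℝ ∞ fun q : ℝ × ℝ => k' q.1 q.2 := by
    rw [contDiff_iff_contDiffAt]
    rintro ⟨s, l⟩
    have e1 : ContDiffAt ℝ ∞ (fun q : ℝ × ℝ => (Real.smoothTransition q.1, q.2)) (s, l) :=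
      ((Real.smoothTransition.contDiff.comp contDiff_fst).prodMk contDiff_snd).contDiffAt
    exact ContDiffAt.comp (s, l) (hk _ (hσ s) l) e1
  have hpz : ∀ s, ∀ l, ∀ p : ℤ, k' s (l + p) = k' s l + p • m₀ := by
    intro s l p
    induction p using Int.induction_on with
    | zero => simp
    | succ i ih =>
      have := hper _ (hσ s) (l + i)
      push_cast at ih ⊢
      rw [← add_assoc]
      show k (Real.smoothTransition s) (l + i + 1) = _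
      rw [this]
      show k' s (l + i) + m₀ = _
      rw [ih, add_smul, one_smul, add_assoc]
    | pred i ih =>
      have := hper _ (hσ s) (l + (-i - 1))
      have e : l + (-i - 1) + 1 = l + -(i : ℝ) := by ring
      rw [e] at this
      push_cast at ih ⊢
      have h2 : k' s (l + (-(i : ℝ) - 1)) = k' s (l + -(i : ℝ)) - m₀ := by
        show k (Real.smoothTransition s) (l + (-(i : ℝ) - 1)) = k (Real.smoothTransition s) (l + -(i : ℝ)) - m₀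
        rw [this]; abel
      rw [h2, ih, sub_smul, one_smul]
      abel
  have hred : ∀ l₀ l : ℝ, ∃ l₁ ∈ Icc (l₀ - 1 / 2) (l₀ + 1 / 2), ∃ m ∈ Λ, ∀ s, k' s l = k' s l₁ + m := by
    intro l₀ l
    refine ⟨l - round (l - l₀), ?_, round (l - l₀) • m₀, Λ.zsmul_mem hm₀ _, ?_⟩
    · have := abs_sub_round (l - l₀)
      rw [abs_le] at this
      constructor <;> linarith [this.1, this.2]
    · intro s
      rw [← hpz]
      congr 1
      ring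
  obtain ⟨F, f1, f2⟩ := steps hΛ hO hk' (J := univ) (J₁ := Icc (1 / 2 - 1 / 2) (1 / 2 + 1 / 2))
    (fun s l _ => himm _ (hσ s) l)
    (fun s₀ l₀ _ => ⟨Icc (l₀ - 1 / 2) (l₀ + 1 / 2), isCompact_Icc, subset_univ _,
      fun l _ => hred l₀ l,
      fun l₁ hl₁ m hm he => by
        obtain ⟨p, hp⟩ := hinj _ (hσ s₀) l₁ l₀ m hm he
        have h4 : |(p : ℝ)| < 1 := by
          have h5 : (p : ℝ) = l₁ - l₀ := by rw [hp]; ring
          rw [h5, abs_lt]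
          constructor <;> linarith [hl₁.1, hl₁.2]
        have h5 : |p| < 1 := by exact_mod_cast h4
        have h6 := Int.abs_lt_one_iff.mp h5
        rw [hp, h6]
        simp⟩)
    isCompact_Icc (fun s l _ => hkO _ (hσ s) l)
    (fun l _ => Or.inr (hred (1 / 2) l)) 0 1
  refine ⟨F, f1, ?_⟩
  intro l
  have e1 := f2 l (mem_univ l)
  simp only [k', Real.smoothTransition.zero, Real.smoothTransition.one] at e1
  exact e1

end Pool.Agent.ISO
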