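import Pool.Agent.ISO.LiftA

/-!
# ISO/LiftB: isotopies of carried knots
-/

open scoped Manifold ContDiff Topology
open Set Filter

namespace Pool.Agent.ISO

open Pool.Agent.PTH (Act Carries VChart VKnot ArcEq)

theorem LiftB_mono {E : Type*} [NormedAddCommGroup E] [NormedSpace ℝ E] {Λ : AddSubgroup E} {O W : Set E}
    (h : O ⊆ W) {F : Equiv.Perm E} (hF : Move Λ O F) : Move Λ W F :=
  ⟨hF.smooth, hF.smooth_symm, hF.comm, by
    obtain ⟨C, h1, h2, h3⟩ := hF.supp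
    exact ⟨C, h1, h2.trans h, h3⟩⟩

/-- the periodic extension of a function which vanishes near the ends of `[a₁, b₁]`, and on `[b₁, a₁ + 1]` -/
theorem LiftB_per {a₀ a₁ a' b' b₁ b₀ : ℝ} (h0 : a₀ < a₁) (h1 : a₁ < a') (h12 : a' ≤ b')
    (h2 : b' < b₁) (h3 : b₁ < b₀) (h4 : b₁ < a₁ + 1) {g : ℝ → ℝ}
    (hg : ∀ l ∈ Ioo a₀ b₀, ContDiffAt ℝ ∞ g l)
    (hz : ∀ l ∈ Icc a₁ b₁, l ≤ a' ∨ b' ≤ l → g l = 0) :
    ∃ σ : ℝ → ℝ, ContDiff ℝ ∞ σ ∧ (∀ l, σ (l + 1) = σ l) ∧ (∀ l ∈ Icc a₁ b₁, σ l = g l) ∧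
      (∀ l, b₁ ≤ l → l ≤ a₁ + 1 → σ l = 0) := by
  classical
  -- the function on one period
  let g₀ : ℝ → ℝ := fun x => if x ∈ Icc a₁ b₁ then g x else 0
  have hz0 : ∀ x, (x ≤ a' ∨ b' ≤ x) → g₀ x = 0 := by
    intro x hx
    by_cases hm : x ∈ Icc a₁ b₁
    · simp only [g₀, if_pos hm]
      exact hz x hm hx
    · simp only [g₀, if_neg hm]
  have hg0 : ContDiff ℝ ∞ g₀ := by
    rw [contDiff_iff_contDiffAt]
    intro x
    rcases lt_or_ge x a' with hx | hx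
    · have : g₀ =ᶠ[𝓝 x] fun _ => 0 := by
        filter_upwards [Iio_mem_nhds hx] with y hy
        exact hz0 y (Or.inl (le_of_lt hy))
      exact contDiffAt_const.congr_of_eventuallyEq this
    · rcases lt_or_ge b' x with hx' | hx'
      · have : g₀ =ᶠ[𝓝 x] fun _ => 0 := by
          filter_upwards [Ioi_mem_nhds hx'] with y hy
          exact hz0 y (Or.inr (le_of_lt hy))
        exact contDiffAt_const.congr_of_eventuallyEq this
      · have : g₀ =ᶠ[𝓝 x] g := by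
          filter_upwards [Ioo_mem_nhds (show a₁ < x by linarith) (show x < b₁ by linarith)] with y hy
          simp only [g₀, if_pos (Ioo_subset_Icc_self hy)]
        exact (hg x ⟨by linarith, by linarith⟩).congr_of_eventuallyEq this
  let σ : ℝ → ℝ := fun l => g₀ (l - ⌊l - a₁⌋)
  have hσp : ∀ l, σ (l + 1) = σ l := by
    intro l
    have : ⌊l + 1 - a₁⌋ = ⌊l - a₁⌋ + 1 := by
      rw [show l + 1 - a₁ = (l - a₁) + 1 by ring, Int.floor_add_one]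
    simp only [σ, this]
    congr 1
    push_cast
    ring
  have hσ0 : ∀ l, a₁ ≤ l → l < a₁ + 1 → σ l = g₀ l := by
    intro l hl hl'
    have : ⌊l - a₁⌋ = 0 := by
      rw [Int.floor_eq_zero_iff]
      exact ⟨by linarith, by linarith⟩
    simp only [σ, this, Int.cast_zero, sub_zero]
  refine ⟨σ, ?_, hσp, ?_, ?_⟩
  · rw [contDiff_iff_contDiffAt]
    intro l
    let n : ℤ := ⌊l - a₁⌋
    have hn1 : (n : ℝ) ≤ l - a₁ := Int.floor_le _
    have hn2 : l - a₁ < n + 1 := Int.lt_floor_add_one _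
    rcases eq_or_lt_of_le hn1 with he | hlt
    · -- at the jump
      have : σ =ᶠ[𝓝 l] fun _ => 0 := by
        have ha : 0 < a' - a₁ := by linarith
        have hb : 0 < a₁ + 1 - b₁ := by linarith
        filter_upwards [Ioo_mem_nhds (show l - min (a₁ + 1 - b₁) 1 < l by
          have := lt_min hb one_pos; linarith) (show l < l + min (a' - a₁) 1 by
          have := lt_min ha one_pos; linarith)] with y hy
        have m1 := min_le_left (a₁ + 1 - b₁) 1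
        have m2 := min_le_right (a₁ + 1 - b₁) 1
        have m3 := min_le_left (a' - a₁) 1
        have m4 := min_le_right (a' - a₁) 1
        rcases lt_or_ge y l with hyl | hyl
        · have hf : ⌊y - a₁⌋ = n - 1 := by
            rw [Int.floor_eq_iff]
            push_cast
            constructor
            · have := hy.1; linarith
            · linarith
          change g₀ (y - ⌊y - a₁⌋) = 0
          rw [hf]
          apply hz0
          right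
          push_cast
          have := hy.1
          linarith
        · have hf : ⌊y - a₁⌋ = n := by
            rw [Int.floor_eq_iff]
            constructor
            · linarith
            · have := hy.2; linarith
          change g₀ (y - ⌊y - a₁⌋) = 0
          rw [hf]
          apply hz0
          left
          have := hy.2
          linarith
      exact contDiffAt_const.congr_of_eventuallyEq this
    · have : σ =ᶠ[𝓝 l] fun y => g₀ (y - n) := by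
        filter_upwards [Ioo_mem_nhds (show a₁ + n < l by linarith) (show l < a₁ + n + 1 by linarith)] with y hy
        have hf : ⌊y - a₁⌋ = n := by
          rw [Int.floor_eq_iff]
          constructor
          · have := hy.1; linarith
          · have := hy.2; linarith
        change g₀ (y - ⌊y - a₁⌋) = g₀ (y - n)
        rw [hf]
      refine ContDiffAt.congr_of_eventuallyEq ?_ this
      exact (hg0.comp (contDiff_id.sub contDiff_const)).contDiffAt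
  · intro l hl
    rw [hσ0 l hl.1 (lt_of_le_of_lt hl.2 h4)]
    simp only [g₀, if_pos hl]
  · intro l hl hl'
    rcases eq_or_lt_of_le hl' with he | hlt
    · rw [he, hσp, hσ0 a₁ le_rfl (by linarith)]
      exact hz0 _ (Or.inl h1.le)
    · rw [hσ0 l (by linarith) hlt]
      exact hz0 _ (Or.inr (by linarith))

/-- two periodic functions which agree on `[a₁, a₁ + 1]` agree -/
theorem LiftB_ext {α : Type*} {f g : ℝ → α} (hf : ∀ l, f (l + 1) = f l) (hg : ∀ l, g (l + 1) = g l) (a₁ : ℝ)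
    (h : ∀ l, a₁ ≤ l → l < a₁ + 1 → f l = g l) : f = g := by
  funext l
  have pf : Function.Periodic f 1 := hf
  have pg : Function.Periodic g 1 := hg
  have e1 : f (l - ⌊l - a₁⌋) = f l := by
    have := pf.sub_int_mul_eq (x := l) ⌊l - a₁⌋
    simpa using this
  have e2 : g (l - ⌊l - a₁⌋) = g l := by
    have := pg.sub_int_mul_eq (x := l) ⌊l - a₁⌋
    simpa using this
  rw [← e1, ← e2]
  apply h
  · have := Int.floor_le (l - a₁)
    linarith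
  · have := Int.lt_floor_add_one (l - a₁)
    linarith

section
variable {E : Type*} [NormedAddCommGroup E] [NormedSpace ℝ E]
  {EP : Type*} [NormedAddCommGroup EP] [NormedSpace ℝ EP] {HP : Type*} [TopologicalSpace HP]
  {IP : ModelWithCorners ℝ EP HP} {P : Type*} [TopologicalSpace P] [ChartedSpace HP P]
variable {a : ℝ → P → P} {Λ : AddSubgroup E} {W : Set E} {C : E × ℝ → P}

/-- **Isotopy of closed curves inside a chart.** -/
theorem carries_loop [FiniteDimensional ℝ E] [T2Space P] (ha : Act IP a) (hΛ : Lat Λ) (hC : EChart IP a Λ W C)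
    {k : ℝ → ℝ → E} {τ : ℝ → ℝ → ℝ}
    (hk : ∀ s ∈ Icc (0 : ℝ) 1, ∀ l, ContDiffAt ℝ ∞ (fun q : ℝ × ℝ => k q.1 q.2) (s, l))
    (hτ : ∀ s ∈ Icc (0 : ℝ) 1, ContDiff ℝ ∞ (τ s))
    {m₀ : E} (hm₀ : m₀ ∈ Λ) (hper : ∀ s ∈ Icc (0 : ℝ) 1, ∀ l, k s (l + 1) = k s l + m₀)
    {p₀ : ℤ} (hperτ : ∀ s ∈ Icc (0 : ℝ) 1, ∀ l, τ s (l + 1) = τ s l + p₀)
    (hkW : ∀ s ∈ Icc (0 : ℝ) 1, ∀ l, k s l ∈ W)
    (himm : ∀ s ∈ Icc (0 : ℝ) 1, ∀ l, deriv (k s) l ≠ 0)
    (hinj : ∀ s ∈ Icc (0 : ℝ) 1, ∀ l l', ∀ m ∈ Λ, k s l = k s l' + m → ∃ p : ℤ, l = l' + p)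
    (n : ℤ) (X : Type*) [TopologicalSpace X] [ChartedSpace (EuclideanSpace ℝ (Fin 4)) X] :
    Carries IP a n (fun l => C (k 0 l, τ 0 l)) X ↔ Carries IP a n (fun l => C (k 1 l, τ 1 l)) X := by
  have z0 : (0 : ℝ) ∈ Icc (0 : ℝ) 1 := ⟨le_rfl, zero_le_one⟩
  have z1 : (1 : ℝ) ∈ Icc (0 : ℝ) 1 := ⟨zero_le_one, le_rfl⟩
  obtain ⟨F, hF, hF1⟩ := core_loop hΛ hC.opn hk hm₀ hper hkW himm hinj
  obtain ⟨Γ, g1, g2, g3, g4⟩ := exists_lift ha hC hF (G := fun _ => 0) contDiff_const (fun _ _ _ => rfl)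
    ⟨∅, isCompact_empty, empty_subset _, fun _ _ => rfl⟩
  rw [carries_map Γ g1 g2]
  have e1 : (fun l => Γ (C (k 0 l, τ 0 l))) = fun l => C (k 1 l, τ 0 l) := by
    funext l
    rw [g3 _ _ (hkW 0 z0 l), hF1, add_zero]
  rw [e1, carries_gauge ha (τ := fun l => τ 1 l - τ 0 l) ((hτ 1 z1).sub (hτ 0 z0)) (by
    intro l
    rw [hperτ 1 z1, hperτ 0 z0]
    ring)]
  have e2 : (fun l => a (τ 1 l - τ 0 l) (C (k 1 l, τ 0 l))) = fun l => C (k 1 l, τ 1 l) := by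
    funext l
    rw [LiftA_C ha hC]
    congr 2
    ring
  rw [e2]

/-- **Isotopy of an arc inside a chart**: the knot `K` is `C (k 0 l, τ 0 l)` for `l ∈ [a₁, b₁]`, this part is replaced
by `C (k 1 l, τ 1 l)`. -/
theorem carries_arc [FiniteDimensional ℝ E] [T2Space P] (ha : Act IP a) (hΛ : Lat Λ) (hC : EChart IP a Λ W C)
    {k : ℝ → ℝ → E} {τ : ℝ → ℝ → ℝ} {a₀ a₁ a' b' b₁ b₀ : ℝ} (h0 : a₀ < a₁) (h1 : a₁ < a') (h12 : a' ≤ b')
    (h2 : b' < b₁) (h3 : b₁ < b₀) (h4 : b₁ < a₁ + 1)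
    (hk : ∀ s ∈ Icc (0 : ℝ) 1, ∀ l ∈ Ioo a₀ b₀, ContDiffAt ℝ ∞ (fun q : ℝ × ℝ => k q.1 q.2) (s, l))
    (hτ : ∀ s ∈ Icc (0 : ℝ) 1, ∀ l ∈ Ioo a₀ b₀, ContDiffAt ℝ ∞ (τ s) l)
    (hend : ∀ s ∈ Icc (0 : ℝ) 1, ∀ l ∈ Icc a₁ b₁, l ≤ a' ∨ b' ≤ l → k s l = k 0 l ∧ τ s l = τ 0 l)
    (hkW : ∀ s ∈ Icc (0 : ℝ) 1, ∀ l ∈ Icc a₁ b₁, k s l ∈ W)
    (himm : ∀ s ∈ Icc (0 : ℝ) 1, ∀ l ∈ Icc a₁ b₁, deriv (k s) l ≠ 0)
    (hinj : ∀ s ∈ Icc (0 : ℝ) 1, ∀ l ∈ Icc a₁ b₁, ∀ l' ∈ Icc a₁ b₁, ∀ m ∈ Λ,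
      k s l = k s l' + m → l = l')
    {K K' : ℝ → P} (hKc : Continuous K) (hKp : ∀ l, K (l + 1) = K l) (hKp' : ∀ l, K' (l + 1) = K' l)
    (hK : ∀ l ∈ Icc a₁ b₁, K l = C (k 0 l, τ 0 l)) (hK' : ∀ l ∈ Icc a₁ b₁, K' l = C (k 1 l, τ 1 l))
    (hrest : ∀ l, b₁ ≤ l → l ≤ a₁ + 1 → K' l = K l)
    (hdis : ∀ s ∈ Icc (0 : ℝ) 1, ∀ l ∈ Icc a' b', ∀ l', b₁ ≤ l' → l' ≤ a₁ + 1 → ∀ t, K l' ≠ C (k s l, t))
    (n : ℤ) (X : Type*) [TopologicalSpace X] [ChartedSpace (EuclideanSpace ℝ (Fin 4)) X] :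
    Carries IP a n K X ↔ Carries IP a n K' X := by
  have z0 : (0 : ℝ) ∈ Icc (0 : ℝ) 1 := ⟨le_rfl, zero_le_one⟩
  have z1 : (1 : ℝ) ∈ Icc (0 : ℝ) 1 := ⟨zero_le_one, le_rfl⟩
  -- the orbit of the rest of the knot
  let R : Set P := (fun q : ℝ × ℝ => a q.1 (K q.2)) '' (Icc (0 : ℝ) 1 ×ˢ Icc b₁ (a₁ + 1))
  have hRc : IsClosed R := by
    refine IsCompact.isClosed ((isCompact_Icc.prod isCompact_Icc).image ?_)
    exact ha.smooth.continuous.comp (continuous_fst.prodMk (hKc.comp continuous_snd))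
  have hR : ∀ x t l', b₁ ≤ l' → l' ≤ a₁ + 1 → K l' = C (x, t) → C (x, 0) ∈ R := by
    intro x t l' hl hl' e
    refine ⟨(Int.fract (-t), l'), ⟨⟨Int.fract_nonneg _, (Int.fract_lt_one _).le⟩, ⟨hl, hl'⟩⟩, ?_⟩
    change a (Int.fract (-t)) (K l') = C (x, 0)
    rw [e, LiftA_C ha hC]
    have := LiftA_Cint ha hC x (t + Int.fract (-t)) ⌊-t⌋
    rw [← this]
    congr 2
    have := Int.fract_add_floor (-t)
    linarith
  have hR' : ∀ x, C (x, 0) ∈ R → ∃ l' t, b₁ ≤ l' ∧ l' ≤ a₁ + 1 ∧ K l' = C (x, t) := by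
    rintro x ⟨⟨u, l'⟩, ⟨-, hl⟩, e⟩
    refine ⟨l', -u, hl.1, hl.2, ?_⟩
    change a u (K l') = C (x, 0) at e
    have : a (-u) (a u (K l')) = a (-u) (C (x, 0)) := by rw [e]
    rw [← ha.add, neg_add_cancel, ha.zero, LiftA_C ha hC, zero_add] at this
    exact this
  let O : Set E := W ∩ {x | C (x, 0) ∉ R}
  have hOW : O ⊆ W := inter_subset_left
  have hO : IsOpen O := by
    have hc : ContinuousOn (fun x : E => C (x, 0)) W := by
      intro x hx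
      refine ContinuousAt.continuousWithinAt ?_
      exact ContinuousAt.comp (g := C) (f := fun x : E => (x, (0 : ℝ)))
        (CSG.ld_continuousAt (hC.loc x 0 hx)) (by fun_prop)
    exact hc.isOpen_inter_preimage hC.opn hRc.isOpen_compl
  obtain ⟨F, hF, hF1⟩ := core_arc hΛ hO h0 h1 h2 h3 hk (fun s hs l hl hl' => (hend s hs l hl hl').1)
    (fun s hs l hl => by
      refine ⟨hkW s hs l ⟨by linarith [hl.1], by linarith [hl.2]⟩, fun hm => ?_⟩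
      obtain ⟨l', t, g1, g2, g3⟩ := hR' _ hm
      exact hdis s hs l hl l' g1 g2 t g3) himm hinj
  have hFW : Move Λ W F := LiftB_mono hOW hF
  obtain ⟨Γ, g1, g2, g3, g4⟩ := exists_lift ha hC hFW (G := fun _ => 0) contDiff_const (fun _ _ _ => rfl)
    ⟨∅, isCompact_empty, empty_subset _, fun _ _ => rfl⟩
  -- the image of the knot
  have hin : ∀ l ∈ Icc a₁ b₁, Γ (K l) = C (k 1 l, τ 0 l) := by
    intro l hl
    rw [hK l hl, g3 _ _ (hkW 0 z0 l hl), hF1 l hl, add_zero]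
  have hout : ∀ l, b₁ ≤ l → l ≤ a₁ + 1 → Γ (K l) = K l := by
    intro l hl hl'
    by_cases hp : ∃ x t, x ∈ W ∧ C (x, t) = K l
    · obtain ⟨x, t, hx, e⟩ := hp
      rw [← e, g3 _ _ hx, add_zero]
      obtain ⟨S, hS, hSO, hFS⟩ := hF.supp
      rw [hFS x ?_]
      intro m hm hxm
      have h5 := (hSO hxm).2
      rw [mem_setOf_eq, hC.per _ _ m hm] at h5
      exact h5 (hR x t l hl hl' e.symm)
    · apply g4
      intro x t hx e
      exact hp ⟨x, t, hx, e⟩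
  obtain ⟨σ, s1, s2, s3, s4⟩ := LiftB_per h0 h1 h12 h2 h3 h4 (g := fun l => τ 1 l - τ 0 l)
    (fun l hl => (hτ 1 z1 l hl).sub (hτ 0 z0 l hl))
    (fun l hl hl' => by
      change τ 1 l - τ 0 l = 0
      rw [(hend 1 z1 l hl hl').2, sub_self])
  rw [carries_map Γ g1 g2, carries_gauge ha s1 s2]
  have e2 : (fun l => a (σ l) (Γ (K l))) = K' := by
    refine LiftB_ext (a₁ := a₁) (fun l => ?_) hKp' ?_
    · rw [s2, hKp]
    · intro l hl hl'
      rcases le_or_gt l b₁ with hb | hb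
      · rw [hin l ⟨hl, hb⟩, LiftA_C ha hC, s3 l ⟨hl, hb⟩, hK' l ⟨hl, hb⟩]
        congr 2
        ring
      · rw [hout l hb.le hl'.le, s4 l hb.le hl'.le, ha.zero, hrest l hb.le hl'.le]
  rw [e2]

end

/-- the lattice `Z (0, 1)` -/
def LiftB_lat : AddSubgroup (ℂ × ℝ) where
  carrier := {x | ∃ m : ℤ, x = (0, (m : ℝ))}
  zero_mem' := ⟨0, by simp; rfl⟩
  add_mem' := by
    rintro _ _ ⟨m, rfl⟩ ⟨k, rfl⟩
    exact ⟨m + k, by simp⟩
  neg_mem' := by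
    rintro _ ⟨m, rfl⟩
    exact ⟨-m, by simp⟩

theorem LiftB_Lat : Lat LiftB_lat := by
  intro R
  have h1 : {m : ℂ × ℝ | m ∈ LiftB_lat ∧ ‖m‖ ≤ R} ⊆
      (fun m : ℤ => ((0 : ℂ), (m : ℝ))) '' (Icc (-⌈R⌉) ⌈R⌉) := by
    rintro _ ⟨⟨m, rfl⟩, hm⟩
    refine ⟨m, ?_, rfl⟩
    have h2 : |(m : ℝ)| ≤ R := by
      have := norm_snd_le ((0 : ℂ), (m : ℝ))
      rw [← Real.norm_eq_abs]
      exact this.trans hm
    rw [abs_le] at h2
    have h3 := Int.le_ceil R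
    constructor
    · have : -(⌈R⌉ : ℝ) ≤ m := by linarith [h2.1]
      exact_mod_cast this
    · have : (m : ℝ) ≤ (⌈R⌉ : ℝ) := by linarith [h2.2]
      exact_mod_cast this
  exact (Set.Finite.image _ (finite_Icc _ _)).subset h1

theorem LiftB_chart {EP : Type*} [NormedAddCommGroup EP] [NormedSpace ℝ EP] {HP : Type*} [TopologicalSpace HP]
    {IP : ModelWithCorners ℝ EP HP} {P : Type*} [TopologicalSpace P] [ChartedSpace HP P]
    {a : ℝ → P → P} {C : ℂ × ℝ × ℝ → P} (hC : VChart IP a C) :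
    EChart IP a LiftB_lat {x : ℂ × ℝ | ‖x.1‖ < 1} (fun q : (ℂ × ℝ) × ℝ => C (q.1.1, q.1.2, q.2)) := by
  have hperi : ∀ (m : ℤ) (z : ℂ) (Y : ℝ) (t : ℝ), C (z, Y + m, t) = C (z, Y, t) := by
    intro m z Y t
    have hp : Function.Periodic (fun Y => C (z, Y, t)) 1 := fun Y => hC.perY z Y t
    have := hp.int_mul m Y
    simpa using this
  refine ⟨?_, ?_, ?_, ?_, ?_, ?_⟩
  · exact isOpen_lt (continuous_norm.comp continuous_fst) continuous_const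
  · rintro x hx _ ⟨m, rfl⟩
    simpa using hx
  · rintro x t _ ⟨m, rfl⟩
    change C (x.1 + 0, x.2 + m, t) = C (x.1, x.2, t)
    rw [add_zero, hperi]
  · intro x t
    exact hC.equiv _ _ _
  · intro x t hx
    have h1 : IsLocalDiffeomorphAt 𝓘(ℝ, (ℂ × ℝ) × ℝ) 𝓘(ℝ, ℂ × ℝ × ℝ) ∞
        (fun q : (ℂ × ℝ) × ℝ => (q.1.1, q.1.2, q.2)) (x, t) :=
      (Diffeomorph.isLocalDiffeomorph (I := 𝓘(ℝ, (ℂ × ℝ) × ℝ)) (J := 𝓘(ℝ, ℂ × ℝ × ℝ)) (n := ∞)
        ⟨⟨fun q : (ℂ × ℝ) × ℝ => (q.1.1, q.1.2, q.2), fun q => ((q.1, q.2.1), q.2.2),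
          fun q => rfl, fun q => rfl⟩,
          ContDiff.contMDiff (show ContDiff ℝ ∞ fun q : (ℂ × ℝ) × ℝ => (q.1.1, q.1.2, q.2) by fun_prop),
          ContDiff.contMDiff (show ContDiff ℝ ∞ fun q : ℂ × ℝ × ℝ => ((q.1, q.2.1), q.2.2) by fun_prop)⟩) (x, t)
    exact IsLocalDiffeomorphAt.comp (hf := h1) (hg := hC.loc _ _ _ hx)
  · intro x t x' t' hx hx' e
    obtain ⟨e1, ⟨m, e2⟩, k, e3⟩ := hC.inj _ _ _ _ _ _ hx hx' e
    refine ⟨⟨(0, (m : ℝ)), ⟨m, rfl⟩, ?_⟩, k, e3⟩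
    ext1
    · simpa using e1.symm
    · simpa using e2

universe u

/-- **Isotopic arcs of the solid torus are equivalent.** -/
theorem arcEq_of_isotopy {γ γ' : ℝ → ℂ × ℝ} (k : ℝ → ℝ → ℂ × ℝ) {ε : ℝ} (hε : 0 < ε)
    (hk : ∀ s ∈ Icc (0 : ℝ) 1, ∀ l, |l| < 1 / 4 → ContDiffAt ℝ ∞ (fun q : ℝ × ℝ => k q.1 q.2) (s, l))
    (h0 : ∀ l, |l| < 1 / 4 → k 0 l = γ l) (h1 : ∀ l, |l| < 1 / 4 → k 1 l = γ' l)
    (hend : ∀ s ∈ Icc (0 : ℝ) 1, ∀ l, |l| < 1 / 4 → 1 / 4 - ε ≤ |l| → k s l = k 0 l)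
    (hin : ∀ s ∈ Icc (0 : ℝ) 1, ∀ l, |l| < 1 / 4 → ‖(k s l).1‖ < 1)
    (himm : ∀ s ∈ Icc (0 : ℝ) 1, ∀ l, |l| < 1 / 4 → deriv (k s) l ≠ 0)
    (hinj : ∀ s ∈ Icc (0 : ℝ) 1, ∀ l l', |l| < 1 / 4 → |l'| < 1 / 4 → ∀ m : ℤ,
      k s l = k s l' + (0, (m : ℝ)) → l = l') : ArcEq.{u} γ γ' := by
  intro a C K K' n X _ _ _ ha hC hK hK' hKK
  have z0 : (0 : ℝ) ∈ Icc (0 : ℝ) 1 := ⟨le_rfl, zero_le_one⟩
  have z1 : (1 : ℝ) ∈ Icc (0 : ℝ) 1 := ⟨zero_le_one, le_rfl⟩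
  obtain ⟨δ, hδ, hδε, hδ8⟩ : ∃ δ : ℝ, 0 < δ ∧ δ ≤ ε ∧ δ ≤ 1 / 8 :=
    ⟨min ε (1 / 8), lt_min hε (by norm_num), min_le_left _ _, min_le_right _ _⟩
  have hE := LiftB_chart hC
  have hKi : ∀ l, |l| < 1 / 4 → K l = C ((k 0 l).1, (k 0 l).2, 0) := by
    intro l hl
    rw [(hK.inner l hl).2, h0 l hl]
  have hKi' : ∀ l, |l| < 1 / 4 → K' l = C ((k 1 l).1, (k 1 l).2, 0) := by
    intro l hl
    rw [(hK'.inner l hl).2, h1 l hl]
  have hst : ∀ s ∈ Icc (0 : ℝ) 1, ∀ l, |l| < 1 / 4 → 1 / 4 - δ ≤ |l| → k s l = k 0 l := by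
    intro s hs l hl hl'
    exact hend s hs l hl (by linarith)
  -- the rest of the knot, near the ends
  have key : ∀ l', 1 / 4 - δ / 2 ≤ l' → l' ≤ -(1 / 4) + δ / 2 + 1 → (1 / 4 ≤ l' ∧ l' ≤ 3 / 4) ∨
      ∃ l, |l| < 1 / 4 ∧ 1 / 4 - δ / 2 ≤ |l| ∧ K l' = K l ∧ K' l' = K' l := by
    intro l' hl hl'
    rcases lt_or_ge l' (1 / 4) with hA | hA
    · right
      have hab : |l'| = l' := abs_of_nonneg (by linarith)
      exact ⟨l', by rw [hab]; exact hA, by rw [hab]; exact hl, rfl, rfl⟩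
    · rcases le_or_gt l' (3 / 4) with hB | hB
      · exact Or.inl ⟨hA, hB⟩
      · right
        have hab : |l' - 1| = 1 - l' := by rw [abs_of_neg (by linarith)]; ring
        refine ⟨l' - 1, by rw [hab]; linarith, by rw [hab]; linarith, ?_, ?_⟩
        · have := hK.per (l' - 1)
          rw [sub_add_cancel] at this
          exact this
        · have := hK'.per (l' - 1)
          rw [sub_add_cancel] at this
          exact this
  refine carries_arc (a₀ := -(1 / 4)) (a₁ := -(1 / 4) + δ / 2) (a' := -(1 / 4) + δ) (b' := 1 / 4 - δ)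
    (b₁ := 1 / 4 - δ / 2) (b₀ := 1 / 4) (k := k) (τ := fun _ _ => 0) ha LiftB_Lat hE
    (by linarith) (by linarith) (by linarith) (by linarith) (by linarith) (by linarith)
    ?_ ?_ ?_ ?_ ?_ ?_ hK.smooth.continuous hK.per hK'.per ?_ ?_ ?_ ?_ n X
  · intro s hs l hl
    exact hk s hs l (abs_lt.2 ⟨hl.1, hl.2⟩)
  · intro s hs l hl
    exact contDiffAt_const
  · intro s hs l hl hl'
    refine ⟨hst s hs l (abs_lt.2 ⟨by linarith [hl.1], by linarith [hl.2]⟩) ?_, rfl⟩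
    rcases hl' with h | h
    · rw [abs_of_neg (by linarith)]
      linarith
    · rw [abs_of_pos (by linarith)]
      linarith
  · intro s hs l hl
    exact hin s hs l (abs_lt.2 ⟨by linarith [hl.1], by linarith [hl.2]⟩)
  · intro s hs l hl
    exact himm s hs l (abs_lt.2 ⟨by linarith [hl.1], by linarith [hl.2]⟩)
  · rintro s hs l hl l' hl' _ ⟨m, rfl⟩ e
    exact hinj s hs l l' (abs_lt.2 ⟨by linarith [hl.1], by linarith [hl.2]⟩)
      (abs_lt.2 ⟨by linarith [hl'.1], by linarith [hl'.2]⟩) m e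
  · intro l hl
    exact hKi l (abs_lt.2 ⟨by linarith [hl.1], by linarith [hl.2]⟩)
  · intro l hl
    exact hKi' l (abs_lt.2 ⟨by linarith [hl.1], by linarith [hl.2]⟩)
  · intro l hl hl'
    rcases key l hl hl' with ⟨hA, hB⟩ | ⟨l₁, g1, g2, g3, g4⟩
    · exact hKK l hA hB
    · rw [g3, g4, hKi l₁ g1, hKi' l₁ g1, hst 1 z1 l₁ g1 (by linarith)]
  · intro s hs l hl l' hl1 hl2 t e
    have hlt : |l| < 1 / 4 := abs_lt.2 ⟨by linarith [hl.1], by linarith [hl.2]⟩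
    rcases key l' hl1 hl2 with ⟨hA, hB⟩ | ⟨l₁, g1, g2, g3, g4⟩
    · exact hK.outer l' hA hB _ _ _ (hin s hs l hlt) e
    · rw [g3, hKi l₁ g1, ← hst s hs l₁ g1 (by linarith)] at e
      obtain ⟨e1, ⟨m, e2⟩, -⟩ := hC.inj _ _ _ _ _ _ (hin s hs l₁ g1) (hin s hs l hlt) e
      have e3 : l = l₁ := hinj s hs l l₁ hlt g1 m (by
        ext1
        · simpa using e1.symm
        · simpa using e2)
      have : |l| ≤ 1 / 4 - δ := abs_le.2 ⟨by linarith [hl.1], hl.2⟩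
      rw [e3] at this
      linarith

end Pool.Agent.ISO
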