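import Pool.Agent.ISO.LiftA
import Pool.Agent.ISO.LiftB

/-!
# ISO/Lift: isotopies of carried knots (see LiftA, LiftB)
-/
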