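import Pool.Agent.ISO.Interp

/-!
# ISO/Field: periodic compactly supported vector fields with prescribed values on a curve
-/

open scoped Manifold ContDiff Topology NNReal
open Set Filter

namespace Pool.Agent.ISO

section persum
variable {E : Type*} [NormedAddCommGroup E] [NormedSpace ℝ E] {V : Type*} [NormedAddCommGroup V]
  [NormedSpace ℝ V]

omit [NormedSpace ℝ E] in
theorem persum_fin {Λ : AddSubgroup E} (hΛ : Lat Λ) {C : Set E} (hC : IsCompact C) (x : E) :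
    {m : Λ | ∃ y ∈ Metric.ball x 1, y + (m : E) ∈ C}.Finite := by
  obtain ⟨R, hR⟩ := hC.isBounded.exists_norm_le
  have h1 := hΛ (R + ‖x‖ + 1)
  refine Set.Finite.of_finite_image (f := fun m : Λ => (m : E)) (h1.subset ?_) (Subtype.val_injective.injOn)
  rintro _ ⟨m, ⟨y, hy, hm⟩, rfl⟩
  refine ⟨m.2, ?_⟩
  have h2 := hR _ hm
  have h3 : ‖y‖ ≤ ‖x‖ + 1 := by
    rw [Metric.mem_ball, dist_eq_norm] at hy
    have := norm_add_le (y - x) x
    rw [sub_add_cancel] at this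
    linarith
  have h4 : ‖(m : E)‖ ≤ ‖y + (m : E)‖ + ‖y‖ := by
    have := norm_sub_le (y + (m : E)) y
    rwa [add_sub_cancel_left] at this
  show ‖(m : E)‖ ≤ _
  linarith

theorem persum_smooth {Λ : AddSubgroup E} (hΛ : Lat Λ) {C : Set E} (hC : IsCompact C) {φ : ℝ × E → V}
    (hφ : ContDiff ℝ ∞ φ) (hs : ∀ s x, x ∉ C → φ (s, x) = 0) :
    ContDiff ℝ ∞ fun q : ℝ × E => ∑ᶠ m : Λ, φ (q.1, q.2 + m) := by
  have h1 : ContMDiff 𝓘(ℝ, ℝ × E) 𝓘(ℝ, V) ∞ fun q : ℝ × E => ∑ᶠ m : Λ, φ (q.1, q.2 + m) := by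
    refine contMDiff_finsum (fun m => ?_) ?_
    · exact (hφ.comp (contDiff_fst.prodMk (contDiff_snd.add contDiff_const))).contMDiff
    · rintro ⟨s, x⟩
      refine ⟨univ ×ˢ Metric.ball x 1, prod_mem_nhds univ_mem (Metric.ball_mem_nhds x one_pos), ?_⟩
      refine (persum_fin hΛ hC x).subset ?_
      rintro m ⟨⟨s', y⟩, h2, -, h3⟩
      refine ⟨y, h3, ?_⟩
      by_contra hc
      exact h2 (hs _ _ hc)
  exact h1.contDiff

theorem persum_per {Λ : AddSubgroup E} (φ : ℝ × E → V) (s : ℝ) (x : E) {m₀ : E} (hm₀ : m₀ ∈ Λ) :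
    ∑ᶠ m : Λ, φ (s, x + m₀ + m) = ∑ᶠ m : Λ, φ (s, x + m) := by
  have h1 : ∀ m : Λ, φ (s, x + m₀ + m) = (fun m : Λ => φ (s, x + m)) ((Equiv.addLeft (⟨m₀, hm₀⟩ : Λ)) m) := by
    intro m
    simp only [Equiv.coe_addLeft, AddSubgroup.coe_add]
    rw [add_assoc]
  rw [finsum_congr h1]
  exact finsum_comp_equiv (f := fun m : Λ => φ (s, x + m)) (Equiv.addLeft (⟨m₀, hm₀⟩ : Λ))

end persum

variable {E : Type*} [NormedAddCommGroup E] [NormedSpace ℝ E] [FiniteDimensional ℝ E]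

/-- cutoff function -/
theorem exists_cut {O : Set E} (hO : IsOpen O) {K : Set E} (hK : IsCompact K) (hKO : K ⊆ O) :
    ∃ (χ : E → ℝ) (C : Set E), ContDiff ℝ ∞ χ ∧ IsCompact C ∧ C ⊆ O ∧ (∀ x ∉ C, χ x = 0) ∧
      (∀ x ∈ K, χ x = 1) ∧ ∀ x, 0 ≤ χ x := by
  obtain ⟨C, hC, h1, h2⟩ := exists_compact_between hK hO hKO
  obtain ⟨f, f1, f2, f3⟩ := exists_contMDiffMap_one_nhds_of_subset_interior (n := (⊤ : ℕ∞)) 𝓘(ℝ, E)
    hK.isClosed h1
  refine ⟨f, C, f.contMDiff.contDiff, hC, h2, f2, fun x hx => f1.self_of_nhdsSet x hx,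
    fun x => (f3 x).1⟩

theorem rho_smooth : ContDiff ℝ ∞ fun t : ℝ => t⁻¹ * Real.smoothTransition (2 * t - 1) := by
  rw [contDiff_iff_contDiffAt]
  intro t
  by_cases ht : t = 0
  · subst ht
    have h1 : (fun t : ℝ => t⁻¹ * Real.smoothTransition (2 * t - 1)) =ᶠ[𝓝 0] fun _ => (0 : ℝ) := by
      have h2 : ∀ᶠ t : ℝ in 𝓝 0, t < 1 / 2 := gt_mem_nhds (by norm_num)
      filter_upwards [h2] with t ht
      rw [Real.smoothTransition.zero_of_nonpos (by linarith), mul_zero]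
    exact contDiffAt_const.congr_of_eventuallyEq h1
  · refine ContDiffAt.mul (contDiffAt_inv ℝ ht) ?_
    exact (Real.smoothTransition.contDiff.comp
      ((contDiff_const.mul contDiff_id).sub contDiff_const)).contDiffAt

theorem exists_field {Λ : AddSubgroup E} (hΛ : Lat Λ) {O : Set E} (hO : IsOpen O) {k : ℝ → E}
    (hk : ContDiff ℝ ∞ k) {J : Set ℝ} {f : ℝ × ℝ → E} (hf : ContDiff ℝ ∞ f)
    (himm : ∀ l ∈ J, deriv k l ≠ 0)
    (hred : ∀ l₀ ∈ J, ∃ J₀ : Set ℝ, IsCompact J₀ ∧ J₀ ⊆ J ∧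
      (∀ l ∈ J, ∃ l₁ ∈ J₀, (∃ m ∈ Λ, k l = k l₁ + m) ∧ ∀ s, f (s, l) = f (s, l₁)) ∧
      ∀ l₁ ∈ J₀, ∀ m ∈ Λ, k l₁ = k l₀ + m → l₁ = l₀)
    {J₁ : Set ℝ} (hJ₁ : IsCompact J₁) (hJO : ∀ l ∈ J₁, k l ∈ O)
    (hJ : ∀ l ∈ J, (∀ s, f (s, l) = 0) ∨ ∃ l₁ ∈ J₁, ∃ m ∈ Λ, k l = k l₁ + m) :
    ∃ (G : ℝ × E → E) (C : Set E), ContDiff ℝ ∞ G ∧ (∀ m ∈ Λ, ∀ s x, G (s, x + m) = G (s, x)) ∧
      IsCompact C ∧ C ⊆ O ∧ (∀ s x, (∀ m ∈ Λ, x + m ∉ C) → G (s, x) = 0) ∧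
      ∀ s, ∀ l ∈ J, G (s, k l) = f (s, l) := by
  obtain ⟨g, g1, g2⟩ := interp hΛ hk hf himm hred
  obtain ⟨χ, C, c1, c2, c3, c4, c5, c6⟩ := exists_cut hO (hJ₁.image hk.continuous)
    (by rintro _ ⟨l, hl, rfl⟩; exact hJO l hl)
  let S : E → ℝ := fun x => ∑ᶠ m : Λ, χ (x + m)
  have hS : ContDiff ℝ ∞ S := by
    have h1 := persum_smooth hΛ c2 (φ := fun q : ℝ × E => χ q.2) (c1.comp contDiff_snd)
      (fun s x hx => c4 x hx)
    exact h1.comp (contDiff_const (c := (0 : ℝ)).prodMk contDiff_id)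
  have hSp : ∀ m ∈ Λ, ∀ x, S (x + m) = S x := fun m hm x =>
    persum_per (fun q : ℝ × E => χ q.2) 0 x hm
  let G0 : ℝ × E → E := fun q => ∑ᶠ m : Λ, χ (q.2 + m) • g (q.1, q.2 + m)
  have hG0 : ContDiff ℝ ∞ G0 := persum_smooth hΛ c2 (φ := fun q : ℝ × E => χ q.2 • g q)
    ((c1.comp contDiff_snd).smul g1) (fun s x hx => by simp only [c4 x hx, zero_smul])
  have hG0p : ∀ m ∈ Λ, ∀ s x, G0 (s, x + m) = G0 (s, x) := fun m hm s x =>
    persum_per (fun q : ℝ × E => χ q.2 • g q) s x hm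
  let r : ℝ → ℝ := fun t => t⁻¹ * Real.smoothTransition (2 * t - 1)
  refine ⟨fun q => r (S q.2) • G0 q, C, ?_, ?_, c2, c3, ?_, ?_⟩
  · exact (rho_smooth.comp (hS.comp contDiff_snd)).smul hG0
  · intro m hm s x
    simp only
    rw [hSp m hm, hG0p m hm]
  · intro s x hx
    have : G0 (s, x) = 0 := by
      simp only [G0]
      apply finsum_eq_zero_of_forall_eq_zero
      intro m
      rw [c4 _ (hx m m.2), zero_smul]
    simp only
    rw [this, smul_zero]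
  · intro s l hl
    have h1 : G0 (s, k l) = S (k l) • f (s, l) := by
      simp only [G0, S]
      have h2 : ∀ m : Λ, χ (k l + m) • g (s, k l + m) = χ (k l + m) • f (s, l) := by
        intro m
        rw [g2 s l hl m m.2]
      rw [finsum_congr h2]
      have hfin : (Function.support fun m : Λ => χ (k l + (m : E))).Finite := by
        refine (persum_fin hΛ c2 (k l)).subset ?_
        intro m hm
        refine ⟨k l, Metric.mem_ball_self one_pos, ?_⟩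
        by_contra hc
        exact hm (c4 _ hc)
      rw [finsum_smul]
    simp only
    rw [h1]
    rcases hJ l hl with h0 | ⟨l₁, hl₁, m₁, hm₁, hkl⟩
    · rw [h0 s, smul_zero, smul_zero]
    · have h2 : 1 ≤ S (k l) := by
        rw [hkl, hSp m₁ hm₁]
        have hfin : (Function.support fun m : Λ => χ (k l₁ + (m : E))).Finite := by
          refine (persum_fin hΛ c2 (k l₁)).subset ?_
          intro m hm
          refine ⟨k l₁, Metric.mem_ball_self one_pos, ?_⟩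
          by_contra hc
          exact hm (c4 _ hc)
        have h3 : χ (k l₁ + ((0 : Λ) : E)) ≤ ∑ᶠ m : Λ, χ (k l₁ + (m : E)) :=
          single_le_finsum (0 : Λ) hfin (fun m => c6 _)
        have h4 : χ (k l₁ + ((0 : Λ) : E)) = 1 := by
          rw [AddSubgroup.coe_zero, add_zero]
          exact c5 _ ⟨l₁, hl₁, rfl⟩
        rw [h4] at h3
        exact h3
      have h3 : r (S (k l)) = (S (k l))⁻¹ := by
        simp only [r]
        rw [Real.smoothTransition.one_of_one_le (by linarith), mul_one]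
      rw [h3, smul_smul, inv_mul_cancel₀ (by linarith), one_smul]

/-- One small step of an isotopy. -/
theorem step {Λ : AddSubgroup E} (hΛ : Lat Λ) {O : Set E} (hO : IsOpen O) {k : ℝ → ℝ → E}
    (hk : ContDiff ℝ ∞ fun q : ℝ × ℝ => k q.1 q.2) {J : Set ℝ} (s₀ : ℝ)
    (himm : ∀ l ∈ J, deriv (k s₀) l ≠ 0)
    (hred : ∀ l₀ ∈ J, ∃ J₀ : Set ℝ, IsCompact J₀ ∧ J₀ ⊆ J ∧
      (∀ l ∈ J, ∃ l₁ ∈ J₀, ∃ m ∈ Λ, ∀ s, k s l = k s l₁ + m) ∧
      ∀ l₁ ∈ J₀, ∀ m ∈ Λ, k s₀ l₁ = k s₀ l₀ + m → l₁ = l₀)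
    {J₁ : Set ℝ} (hJ₁ : IsCompact J₁) (hJO : ∀ l ∈ J₁, k s₀ l ∈ O)
    (hJ : ∀ l ∈ J, (∀ s, k s l = k s₀ l) ∨ ∃ l₁ ∈ J₁, ∃ m ∈ Λ, k s₀ l = k s₀ l₁ + m) :
    ∀ᶠ s in 𝓝 s₀, ∃ F : Equiv.Perm E, Move Λ O F ∧ ∀ l ∈ J, F (k s₀ l) = k s l := by
  have : CompleteSpace E := FiniteDimensional.complete ℝ E
  have hk0 : ContDiff ℝ ∞ (k s₀) := by
    have : k s₀ = (fun q : ℝ × ℝ => k q.1 q.2) ∘ fun l => (s₀, l) := rfl
    rw [this]
    exact hk.comp (contDiff_const.prodMk contDiff_id)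
  obtain ⟨G, C, g1, g2, g3, g4, g5, g6⟩ := exists_field hΛ hO hk0 (J := J)
    (f := fun q : ℝ × ℝ => k q.1 q.2 - k s₀ q.2)
    (hk.sub (hk0.comp contDiff_snd)) himm
    (by
      intro l₀ hl₀
      obtain ⟨J₀, h1, h2, h3, h4⟩ := hred l₀ hl₀
      refine ⟨J₀, h1, h2, ?_, h4⟩
      intro l hl
      obtain ⟨l₁, hl₁, m, hm, he⟩ := h3 l hl
      refine ⟨l₁, hl₁, ⟨m, hm, he s₀⟩, ?_⟩
      intro s
      show k s l - k s₀ l = k s l₁ - k s₀ l₁
      rw [he s, he s₀]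
      abel)
    hJ₁ hJO
    (by
      intro l hl
      rcases hJ l hl with h | h
      · left
        intro s
        show k s l - k s₀ l = 0
        rw [h s, sub_self]
      · right; exact h)
  have key := small_family hΛ (O := O) (C := C) (G := fun q : ℝ × E => G q - G (s₀, q.2)) (s₀ := s₀)
    (g1.sub (g1.comp (contDiff_const.prodMk contDiff_snd))) (fun x => by simp)
    (fun m hm s x => by
      show G (s, x + m) - G (s₀, x + m) = G (s, x) - G (s₀, x)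
      rw [g2 m hm, g2 m hm]) g3 g4
    (fun s x hx => by
      show G (s, x) - G (s₀, x) = 0
      rw [g5 s x hx, g5 s₀ x hx, sub_self])
  filter_upwards [key] with s hs
  obtain ⟨F, f1, f2⟩ := hs
  refine ⟨F, f1, ?_⟩
  intro l hl
  rw [f2]
  show k s₀ l + (G (s, k s₀ l) - G (s₀, k s₀ l)) = k s l
  rw [g6 s l hl, g6 s₀ l hl]
  simp

end Pool.Agent.ISO
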