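import Pool.Agent.ISO.Core
import Pool.Agent.PTH.Defs
import Pool.Agent.CSG.GamAbs
import Pool.Agent.CSG.LDb

/-!
# ISO/LiftA: charts, lifts, gauge
-/

open scoped Manifold ContDiff Topology
open Set Filter

namespace Pool.Agent.ISO

open Pool.Agent.PTH (Act Carries VChart VKnot ArcEq)

section
variable {E : Type*} [NormedAddCommGroup E] [NormedSpace ℝ E]
  {EP : Type*} [NormedAddCommGroup EP] [NormedSpace ℝ EP] {HP : Type*} [TopologicalSpace HP]
  {IP : ModelWithCorners ℝ EP HP} {P : Type*} [TopologicalSpace P] [ChartedSpace HP P]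

/-- Equivariant chart `C (x, t)`, `x ∈ W`, of an open part of `P`; `x` modulo `Λ`, `t` modulo `1`. -/
structure EChart (IP : ModelWithCorners ℝ EP HP) (a : ℝ → P → P) (Λ : AddSubgroup E) (W : Set E)
    (C : E × ℝ → P) : Prop where
  opn : IsOpen W
  inv : ∀ x ∈ W, ∀ m ∈ Λ, x + m ∈ W
  per : ∀ x t, ∀ m ∈ Λ, C (x + m, t) = C (x, t)
  equiv : ∀ x t, C (x, t) = a t (C (x, 0))
  loc : ∀ x t, x ∈ W → IsLocalDiffeomorphAt 𝓘(ℝ, E × ℝ) IP ∞ C (x, t)
  inj : ∀ x t x' t', x ∈ W → x' ∈ W → C (x, t) = C (x', t') →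
    (∃ m ∈ Λ, x' = x + m) ∧ ∃ m : ℤ, t' = t + m

variable {a : ℝ → P → P} {Λ : AddSubgroup E} {W : Set E} {C : E × ℝ → P}

theorem LiftA_symm {F : Equiv.Perm P} (hF : ∀ p, IsLocalDiffeomorphAt IP IP ∞ F p) (p : P) :
    IsLocalDiffeomorphAt IP IP ∞ F.symm p := by
  have h1 := CSG.ld_of_comp_left (I := IP) (J := IP) (K := IP) (n := ∞) (f := F) (g := F.symm)
    (x := F.symm p) ?_ (hF (F.symm p))
  · rw [Equiv.apply_symm_apply] at h1
    exact h1
  · have h2 : (F.symm ∘ F : P → P) = id := by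
      funext x
      simp
    rw [h2]
    exact CSG.ld_id (F.symm p)

theorem LiftA_fwd {n : ℤ} {K : ℝ → P} {X : Type*} [TopologicalSpace X]
    [ChartedSpace (EuclideanSpace ℝ (Fin 4)) X]
    (Γ : Equiv.Perm P) (h : ∀ p, IsLocalDiffeomorphAt IP IP ∞ Γ p) (hc : ∀ t p, Γ (a t p) = a t (Γ p))
    (H : Carries IP a n K X) : Carries IP a n (fun l => Γ (K l)) X := by
  obtain ⟨κ, j, hT, he, hk, ⟨D⟩⟩ := H
  have hon : ∀ p, RBM.OnT (fun q => Γ (κ q)) p ↔ RBM.OnT κ (Γ.symm p) := by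
    intro p
    constructor
    · rintro ⟨l, t, hp⟩
      exact ⟨l, t, by rw [hp]; simp⟩
    · rintro ⟨l, t, hp⟩
      refine ⟨l, t, ?_⟩
      change p = Γ (κ (l, 0, t))
      rw [← hp]
      simp
  refine ⟨fun q => Γ (κ q), j, ?_, ?_, ?_, ⟨?_⟩⟩
  · refine ⟨fun l v t => ?_, fun l v t => ?_, fun l v t hv => ?_, ?_⟩
    · simp only [hT.perl]
    · simp only [hT.pert]
    · exact IsLocalDiffeomorphAt.comp (hf := hT.loc l v t hv) (hg := h _)
    · intro l v t l' v' t' hv hv' e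
      exact hT.inj l v t l' v' t' hv hv' (Γ.injective e)
  · intro l v t
    change Γ (κ (l, v, t)) = a t (Γ (κ (l, v, 0)))
    rw [← hc, ← he]
  · intro l
    change Γ (κ (l, 0, 0)) = Γ (K l)
    rw [hk]
  · refine ⟨fun p => D.A (Γ.symm p), D.Q, ?_, ?_, D.Q_loc, D.Q_inj, ?_, ?_, ?_⟩
    · intro p hp
      rw [hon] at hp
      exact IsLocalDiffeomorphAt.comp (hf := LiftA_symm h p) (hg := D.A_loc _ hp)
    · intro p p' hp hp' e
      rw [hon] at hp hp'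
      exact Γ.symm.injective (D.A_inj _ _ hp hp' e)
    · intro z l m t h1 h2 h3 h4 h5 h6
      rw [D.glue z l m t h1 h2 h3 h4 h5 h6]
      simp
    · intro z p h1 h2 h3
      rw [hon] at h3
      exact D.disj z _ h1 h2 h3
    · intro q
      rcases D.cover q with ⟨p, hp, rfl⟩ | hq
      · refine Or.inl ⟨Γ p, ?_, ?_⟩
        · rw [hon]
          simpa using hp
        · simp
      · exact Or.inr hq

/-- An equivariant diffeomorphism of `P` transports carried knots. -/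
theorem carries_map {n : ℤ} {K : ℝ → P} {X : Type*} [TopologicalSpace X] [ChartedSpace (EuclideanSpace ℝ (Fin 4)) X]
    (Γ : Equiv.Perm P) (h : ∀ p, IsLocalDiffeomorphAt IP IP ∞ Γ p) (hc : ∀ t p, Γ (a t p) = a t (Γ p)) :
    Carries IP a n K X ↔ Carries IP a n (fun l => Γ (K l)) X := by
  constructor
  · exact LiftA_fwd Γ h hc
  · intro H
    have h1 := LiftA_fwd (IP := IP) (a := a) Γ.symm (LiftA_symm h) (fun t p => by
      apply Γ.injective
      rw [hc]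
      simp) H
    simpa using h1

theorem LiftA_int (ha : Act IP a) (m : ℤ) (p : P) : a m p = p := by
  have h1 : ∀ n : ℕ, ∀ p, a n p = p := by
    intro n
    induction n with
    | zero => intro p; simpa using ha.zero p
    | succ n ih =>
      intro p
      rw [Nat.cast_succ, ha.add, ha.per, ih]
  have h2 : ∀ n : ℕ, ∀ p, a (-(n : ℝ)) p = p := by
    intro n p
    have := ha.add (-(n : ℝ)) n p
    rw [h1, neg_add_cancel, ha.zero] at this
    exact this.symm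
  rcases Int.eq_nat_or_neg m with ⟨k, rfl | rfl⟩
  · simpa using h1 k p
  · simpa using h2 k p

theorem LiftA_C (ha : Act IP a) (hC : EChart IP a Λ W C) (u : ℝ) (x : E) (t : ℝ) :
    a u (C (x, t)) = C (x, t + u) := by
  rw [hC.equiv x t, hC.equiv x (t + u), ← ha.add, add_comm]

theorem LiftA_Cint (ha : Act IP a) (hC : EChart IP a Λ W C) (x : E) (t : ℝ) (m : ℤ) :
    C (x, t + m) = C (x, t) := by
  rw [← LiftA_C ha hC, LiftA_int ha]

theorem LiftA_closed [T2Space P] (ha : Act IP a) (hC : EChart IP a Λ W C) {S : Set E} (hS : IsCompact S)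
    (hSW : S ⊆ W) : IsClosed (C '' ({x : E | ∃ m ∈ Λ, x + m ∈ S} ×ˢ (univ : Set ℝ))) := by
  have e : C '' ({x : E | ∃ m ∈ Λ, x + m ∈ S} ×ˢ (univ : Set ℝ)) = C '' (S ×ˢ Icc 0 1) := by
    apply Subset.antisymm
    · rintro _ ⟨⟨x, t⟩, ⟨⟨m, hm, hx⟩, -⟩, rfl⟩
      refine ⟨(x + m, Int.fract t), ⟨hx, Int.fract_nonneg t, (Int.fract_lt_one t).le⟩, ?_⟩
      rw [hC.per _ _ m hm]
      have := LiftA_Cint ha hC x (Int.fract t) ⌊t⌋
      rw [← this, Int.fract_add_floor]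
    · apply image_mono
      refine Set.prod_mono ?_ (subset_univ _)
      intro x hx
      exact ⟨0, Λ.zero_mem, by simpa using hx⟩
  rw [e]
  refine IsCompact.isClosed (IsCompact.image_of_continuousOn (hS.prod isCompact_Icc) ?_)
  rintro ⟨x, t⟩ ⟨hx, -⟩
  exact (CSG.ld_continuousAt (hC.loc x t (hSW hx))).continuousWithinAt

theorem LiftA_moveW {O : Set E} (hW : ∀ x ∈ W, ∀ m ∈ Λ, x + m ∈ W) (hOW : O ⊆ W)
    {F : Equiv.Perm E} (hF : Move Λ O F) :
    ∀ x ∈ W, F x ∈ W := by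
  obtain ⟨S, hS, hSW, hFS⟩ := hF.supp
  intro x hx
  by_cases h : ∀ m ∈ Λ, F x + m ∉ S
  · have h1 := hFS _ h
    have h2 : F x = x := F.injective h1
    rw [h2]; exact hx
  · push Not at h
    obtain ⟨m, hm, h⟩ := h
    have := hW _ (hOW (hSW h)) (-m) (Λ.neg_mem hm)
    simpa using this

theorem LiftA_moveW' {O : Set E} (hW : ∀ x ∈ W, ∀ m ∈ Λ, x + m ∈ W) (hOW : O ⊆ W)
    {F : Equiv.Perm E} (hF : Move Λ O F) :
    ∀ x ∈ W, F.symm x ∈ W := by
  obtain ⟨S, hS, hSW, hFS⟩ := hF.supp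
  intro x hx
  by_cases h : ∀ m ∈ Λ, F.symm x + m ∉ S
  · have h1 := hFS _ h
    rw [Equiv.apply_symm_apply] at h1
    rw [← h1]; exact hx
  · push Not at h
    obtain ⟨m, hm, h⟩ := h
    have := hW _ (hOW (hSW h)) (-m) (Λ.neg_mem hm)
    simpa using this

/-- A compactly supported diffeomorphism of the chart (and a shift of `t`) extends to `P`. -/
theorem exists_lift [T2Space P] (ha : Act IP a) (hC : EChart IP a Λ W C) {F : Equiv.Perm E} (hF : Move Λ W F)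
    {G : E → ℝ} (hG : ContDiff ℝ ∞ G) (hGp : ∀ m ∈ Λ, ∀ x, G (x + m) = G x)
    (hGs : ∃ S : Set E, IsCompact S ∧ S ⊆ W ∧ ∀ x, (∀ m ∈ Λ, x + m ∉ S) → G x = 0) :
    ∃ Γ : Equiv.Perm P, (∀ p, IsLocalDiffeomorphAt IP IP ∞ Γ p) ∧ (∀ t p, Γ (a t p) = a t (Γ p)) ∧
      (∀ x t, x ∈ W → Γ (C (x, t)) = C (F x, t + G x)) ∧
      (∀ p, (∀ x t, x ∈ W → C (x, t) ≠ p) → Γ p = p) := by
  obtain ⟨S₁, hS₁, hS₁W, hFS⟩ := hF.supp
  obtain ⟨S₂, hS₂, hS₂W, hGS⟩ := hGs
  have hFW := LiftA_moveW hC.inv Subset.rfl hF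
  have hFW' := LiftA_moveW' hC.inv Subset.rfl hF
  have hcomm' : ∀ m ∈ Λ, ∀ x, F.symm (x + m) = F.symm x + m := by
    intro m hm x
    apply F.injective
    rw [hF.comm m hm]
    simp
  obtain ⟨Γ, g1, g2, g3, -⟩ := CSG.exists_gamma (J := IP) C (W ×ˢ (univ : Set ℝ))
    ({x : E | ∃ m ∈ Λ, x + m ∈ S₁ ∪ S₂} ×ˢ (univ : Set ℝ)) ∅ (fun z => (F z.1, z.2 + G z.1))
    (fun z => (F.symm z.1, z.2 - G (F.symm z.1)))
    (hC.opn.prod isOpen_univ)
    (fun z hz => hC.loc z.1 z.2 hz.1) (fun z _ => by simp)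
    (fun z _ => by
      have hq : ContDiff ℝ ∞ fun z : E × ℝ => (F z.1, z.2 + G z.1) :=
        (hF.smooth.comp contDiff_fst).prodMk (contDiff_snd.add (hG.comp contDiff_fst))
      have hq' : ContDiff ℝ ∞ fun z : E × ℝ => (F.symm z.1, z.2 - G (F.symm z.1)) :=
        (hF.smooth_symm.comp contDiff_fst).prodMk
          (contDiff_snd.sub (hG.comp (hF.smooth_symm.comp contDiff_fst)))
      exact (Diffeomorph.isLocalDiffeomorph (I := 𝓘(ℝ, E × ℝ)) (J := 𝓘(ℝ, E × ℝ)) (n := ∞)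
        ⟨⟨fun z => (F z.1, z.2 + G z.1), fun z => (F.symm z.1, z.2 - G (F.symm z.1)),
          fun z => by simp, fun z => by simp⟩, hq.contMDiff, hq'.contMDiff⟩) z)
    (fun z _ => by simp) (fun z _ => by simp)
    (fun z hz => ⟨hFW _ hz.1, trivial⟩) (fun z hz => ⟨hFW' _ hz.1, trivial⟩)
    (fun z hz z' hz' he => by
      obtain ⟨⟨m, hm, e1⟩, k, e2⟩ := hC.inj _ _ _ _ hz.1 hz'.1 he
      change C (F z.1, z.2 + G z.1) = C (F z'.1, z'.2 + G z'.1)
      rw [e1, e2, hF.comm m hm, hGp m hm, hC.per _ _ m hm, add_right_comm, LiftA_Cint ha hC])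
    (fun z hz z' hz' he => by
      obtain ⟨⟨m, hm, e1⟩, k, e2⟩ := hC.inj _ _ _ _ hz.1 hz'.1 he
      change C (F.symm z.1, z.2 - G (F.symm z.1)) = C (F.symm z'.1, z'.2 - G (F.symm z'.1))
      rw [e1, e2, hcomm' m hm, hGp m hm, hC.per _ _ m hm,
        show z.2 + (k : ℝ) - G (F.symm z.1) = z.2 - G (F.symm z.1) + k by ring, LiftA_Cint ha hC])
    (fun z hz hzC => by
      obtain ⟨x, t⟩ := z
      have h1 : ∀ m ∈ Λ, x + m ∉ S₁ ∪ S₂ := by
        intro m hm h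
        exact hzC ⟨⟨m, hm, h⟩, trivial⟩
      have h2 : F x = x := hFS x (fun m hm h => h1 m hm (Or.inl h))
      have h3 : G x = 0 := hGS x (fun m hm h => h1 m hm (Or.inr h))
      simp only [h2, h3, add_zero])
    (by rw [union_empty]; exact LiftA_closed ha hC (hS₁.union hS₂) (union_subset hS₁W hS₂W))
    (by
      refine Set.prod_mono ?_ Subset.rfl
      rintro x ⟨m, hm, h⟩
      have := hC.inv _ (union_subset hS₁W hS₂W h) (-m) (Λ.neg_mem hm)
      simpa using this)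
  have key : ∀ x t, x ∈ W → Γ (C (x, t)) = C (F x, t + G x) :=
    fun x t hx => g2 (x, t) ⟨hx, trivial⟩
  refine ⟨Γ, fun p => g1 p (by simp), ?_, key, ?_⟩
  · intro u p
    by_cases hp : ∃ x t, x ∈ W ∧ C (x, t) = p
    · obtain ⟨x, t, hx, rfl⟩ := hp
      rw [LiftA_C ha hC, key _ _ hx, key _ _ hx, LiftA_C ha hC, add_right_comm]
    · have h1 : p ∉ C '' (W ×ˢ (univ : Set ℝ)) := by
        rintro ⟨⟨x, t⟩, ⟨hx, -⟩, e⟩
        exact hp ⟨x, t, hx, e⟩
      have h2 : a u p ∉ C '' (W ×ˢ (univ : Set ℝ)) := by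
        rintro ⟨⟨x, t⟩, ⟨hx, -⟩, e⟩
        refine hp ⟨x, t + -u, hx, ?_⟩
        rw [← LiftA_C ha hC, e, ← ha.add, neg_add_cancel, ha.zero]
      rw [g3 p h1, g3 _ h2]
  · intro p hp
    apply g3
    rintro ⟨⟨x, t⟩, ⟨hx, -⟩, e⟩
    exact hp x t hx e

/-- the lattice `Z (1, 0)` -/
def LiftA_lat : AddSubgroup (ℝ × ℂ) where
  carrier := {x | ∃ m : ℤ, x = ((m : ℝ), 0)}
  zero_mem' := ⟨0, by simp; rfl⟩
  add_mem' := by
    rintro _ _ ⟨m, rfl⟩ ⟨k, rfl⟩
    exact ⟨m + k, by simp⟩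
  neg_mem' := by
    rintro _ ⟨m, rfl⟩
    exact ⟨-m, by simp⟩

theorem LiftA_gauge [T2Space P] (ha : Act IP a) {n : ℤ} {K : ℝ → P} {X : Type*} [TopologicalSpace X]
    [ChartedSpace (EuclideanSpace ℝ (Fin 4)) X] {τ : ℝ → ℝ} (hτ : ContDiff ℝ ∞ τ)
    (hper : ∀ l, τ (l + 1) = τ l) (H : Carries IP a n K X) :
    Carries IP a n (fun l => a (τ l) (K l)) X := by
  obtain ⟨κ, j, hT, he, hk, ⟨D⟩⟩ := H
  have H' : Carries IP a n K X := ⟨κ, j, hT, he, hk, ⟨D⟩⟩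
  have hperi : ∀ (m : ℤ) (l : ℝ) (v : ℂ) (t : ℝ), κ (l + m, v, t) = κ (l, v, t) := by
    intro m l v t
    have hp : Function.Periodic (fun l => κ (l, v, t)) 1 := fun l => hT.perl l v t
    have := hp.int_mul m l
    simpa using this
  have hτi : ∀ (m : ℤ) (l : ℝ), τ (l + m) = τ l := by
    intro m l
    have hp : Function.Periodic τ 1 := hper
    have := hp.int_mul m l
    simpa using this
  have hC : EChart IP a LiftA_lat {x : ℝ × ℂ | ‖x.2‖ < 1}
      (fun q : (ℝ × ℂ) × ℝ => κ (q.1.1, q.1.2, q.2)) := by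
    refine ⟨?_, ?_, ?_, ?_, ?_, ?_⟩
    · exact isOpen_lt (continuous_norm.comp continuous_snd) continuous_const
    · rintro x hx _ ⟨m, rfl⟩
      simpa using hx
    · rintro x t _ ⟨m, rfl⟩
      change κ (x.1 + m, x.2 + 0, t) = κ (x.1, x.2, t)
      rw [add_zero, hperi]
    · intro x t
      exact he _ _ _
    · intro x t hx
      have h1 : IsLocalDiffeomorphAt 𝓘(ℝ, (ℝ × ℂ) × ℝ) 𝓘(ℝ, ℝ × ℂ × ℝ) ∞
          (fun q : (ℝ × ℂ) × ℝ => (q.1.1, q.1.2, q.2)) (x, t) :=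
        (Diffeomorph.isLocalDiffeomorph (I := 𝓘(ℝ, (ℝ × ℂ) × ℝ)) (J := 𝓘(ℝ, ℝ × ℂ × ℝ)) (n := ∞)
          ⟨⟨fun q : (ℝ × ℂ) × ℝ => (q.1.1, q.1.2, q.2), fun q => ((q.1, q.2.1), q.2.2),
            fun q => rfl, fun q => rfl⟩,
            ContDiff.contMDiff (show ContDiff ℝ ∞ fun q : (ℝ × ℂ) × ℝ => (q.1.1, q.1.2, q.2) by fun_prop),
            ContDiff.contMDiff (show ContDiff ℝ ∞ fun q : ℝ × ℂ × ℝ => ((q.1, q.2.1), q.2.2) by fun_prop)⟩) (x, t)
      exact IsLocalDiffeomorphAt.comp (hf := h1) (hg := hT.loc _ _ _ hx)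
    · intro x t x' t' hx hx' e
      obtain ⟨e1, ⟨m, e2⟩, k, e3⟩ := hT.inj _ _ _ _ _ _ hx hx' e
      refine ⟨⟨((m : ℝ), 0), ⟨m, rfl⟩, ?_⟩, k, e3⟩
      ext1
      · simpa using e2
      · simpa using e1.symm
  have hF : Move (LiftA_lat) {x : ℝ × ℂ | ‖x.2‖ < 1} (Equiv.refl (ℝ × ℂ)) := by
    refine ⟨contDiff_id, contDiff_id, fun m _ x => rfl, ∅, isCompact_empty, empty_subset _, ?_⟩
    intro x _
    rfl
  let χ : ℝ → ℝ := fun r => Real.smoothTransition (3 - 4 * r)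
  have hχ : ContDiff ℝ ∞ χ := Real.smoothTransition.contDiff.comp (by fun_prop)
  have hχ0 : χ 0 = 1 := Real.smoothTransition.one_of_one_le (by norm_num)
  have hχ1 : ∀ r, 3 / 4 ≤ r → χ r = 0 := by
    intro r hr
    exact Real.smoothTransition.zero_of_nonpos (by linarith)
  let G : ℝ × ℂ → ℝ := fun x => χ (‖x.2‖ ^ 2) * τ x.1
  have hG : ContDiff ℝ ∞ G := by
    refine ContDiff.mul (hχ.comp ?_) (hτ.comp contDiff_fst)
    exact (contDiff_snd).norm_sq ℝ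
  obtain ⟨Γ, g1, g2, g3, g4⟩ := exists_lift ha hC hF hG (by
      rintro _ ⟨m, rfl⟩ x
      change χ (‖x.2 + 0‖ ^ 2) * τ (x.1 + m) = χ (‖x.2‖ ^ 2) * τ x.1
      rw [add_zero, hτi])
    ⟨Icc 0 1 ×ˢ Metric.closedBall (0 : ℂ) (9 / 10), isCompact_Icc.prod (isCompact_closedBall _ _), by
      rintro x ⟨-, hx⟩
      rw [mem_closedBall_zero_iff] at hx
      change ‖x.2‖ < 1
      linarith, by
      intro x hx
      have h1 := hx (((-⌊x.1⌋ : ℤ) : ℝ), 0) ⟨-⌊x.1⌋, rfl⟩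
      have h2 : 9 / 10 < ‖x.2‖ := by
        by_contra hc
        push Not at hc
        apply h1
        refine ⟨⟨?_, ?_⟩, ?_⟩
        · change 0 ≤ x.1 + ((-⌊x.1⌋ : ℤ) : ℝ)
          push_cast
          have := Int.floor_le x.1
          linarith
        · change x.1 + ((-⌊x.1⌋ : ℤ) : ℝ) ≤ 1
          push_cast
          have := Int.lt_floor_add_one x.1
          linarith
        · change x.2 + 0 ∈ _
          rw [add_zero, mem_closedBall_zero_iff]
          exact hc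
      change χ (‖x.2‖ ^ 2) * τ x.1 = 0
      rw [hχ1 _ (by nlinarith), zero_mul]⟩
  have h1 := LiftA_fwd (IP := IP) Γ g1 g2 H'
  have h2 : (fun l => Γ (K l)) = fun l => a (τ l) (K l) := by
    funext l
    rw [← hk l]
    have := g3 (l, 0) 0 (by change ‖(0 : ℂ)‖ < 1; simp)
    change Γ (κ (l, 0, 0)) = κ (l, 0, 0 + χ (‖(0 : ℂ)‖ ^ 2) * τ l) at this
    rw [this, he]
    simp [hχ0]
  rw [h2] at h1
  exact h1

/-- The lift of the knot to `P` may be changed by a periodic function. -/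
theorem carries_gauge [T2Space P] (ha : Act IP a) {n : ℤ} {K : ℝ → P} {X : Type*} [TopologicalSpace X]
    [ChartedSpace (EuclideanSpace ℝ (Fin 4)) X] {τ : ℝ → ℝ} (hτ : ContDiff ℝ ∞ τ)
    (hper : ∀ l, τ (l + 1) = τ l) :
    Carries IP a n K X ↔ Carries IP a n (fun l => a (τ l) (K l)) X := by
  constructor
  · exact LiftA_gauge ha hτ hper
  · intro H
    have h1 := LiftA_gauge (τ := fun l => -τ l) ha hτ.neg (fun l => by simp only [hper]) H
    have h2 : (fun l => a (-τ l) (a (τ l) (K l))) = K := by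
      funext l
      rw [← ha.add, neg_add_cancel, ha.zero]
    rw [h2] at h1
    exact h1

end

end Pool.Agent.ISO
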