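import Pool.Agent.ISO.Defs

/-!
# ISO/Small: `id + small` is a diffeomorphism
-/

open scoped ContDiff Topology NNReal Pointwise
open Set Filter

namespace Pool.Agent.ISO

variable {E : Type*} [NormedAddCommGroup E] [NormedSpace ℝ E]

omit [NormedSpace ℝ E] in
theorem Lat.isClosed {Λ : AddSubgroup E} (h : Lat Λ) : IsClosed (Λ : Set E) := by
  apply isClosed_of_closure_subset
  intro x hx
  have h1 : IsClosed {m : E | m ∈ Λ ∧ ‖m‖ ≤ ‖x‖ + 1} := (h _).isClosed
  have h2 : x ∈ closure {m : E | m ∈ Λ ∧ ‖m‖ ≤ ‖x‖ + 1} := by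
    rw [Metric.mem_closure_iff] at hx ⊢
    intro ε hε
    obtain ⟨b, hb, hd⟩ := hx (min ε 1) (lt_min hε one_pos)
    refine ⟨b, ⟨hb, ?_⟩, lt_of_lt_of_le hd (min_le_left _ _)⟩
    have h3 : dist x b < 1 := lt_of_lt_of_le hd (min_le_right _ _)
    rw [dist_comm, dist_eq_norm] at h3
    have h4 : ‖b‖ ≤ ‖b - x‖ + ‖x‖ := by
      have := norm_add_le (b - x) x
      simpa using this
    linarith
  exact (h1.closure_eq ▸ h2).1

omit [NormedSpace ℝ E] in
/-- the set `C + Λ` is closed -/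
theorem Lat.isClosed_add {Λ : AddSubgroup E} (h : Lat Λ) {C : Set E} (hC : IsCompact C) :
    IsClosed {x : E | ∃ m ∈ Λ, x + m ∈ C} := by
  have h1 : {x : E | ∃ m ∈ Λ, x + m ∈ C} = (Λ : Set E) + C := by
    ext x
    rw [Set.mem_add]
    constructor
    · rintro ⟨m, hm, hx⟩
      exact ⟨-m, Λ.neg_mem hm, x + m, hx, by abel⟩
    · rintro ⟨m, hm, c, hc, rfl⟩
      refine ⟨-m, Λ.neg_mem hm, ?_⟩
      have : m + c + -m = c := by abel
      rw [this]; exact hc
  rw [h1]
  exact h.isClosed.add_right_of_isCompact hC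

theorem small_perm [CompleteSpace E] {G : E → E} (hG : ContDiff ℝ ∞ G) (h : ∀ x, ‖fderiv ℝ G x‖ ≤ 1 / 2) :
    ∃ F : Equiv.Perm E, ContDiff ℝ ∞ F ∧ ContDiff ℝ ∞ F.symm ∧ ∀ x, F x = x + G x := by
  have hn : (∞ : WithTop ℕ∞) ≠ 0 := by simp
  have hL : LipschitzWith (1 / 2 : ℝ≥0) G := by
    apply lipschitzWith_of_nnnorm_fderiv_le (𝕜 := ℝ) (hG.differentiable hn)
    intro x
    have := h x
    rw [← NNReal.coe_le_coe]
    simpa using this
  have hA : ApproximatesLinearOn (fun x => x + G x)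
      ((ContinuousLinearEquiv.refl ℝ E : E ≃L[ℝ] E) : E →L[ℝ] E) univ (1 / 2 : ℝ≥0) := by
    intro x _ y _
    have h1 := hL.dist_le_mul x y
    rw [dist_eq_norm, dist_eq_norm] at h1
    have h2 : x + G x - (y + G y) - ((ContinuousLinearEquiv.refl ℝ E : E ≃L[ℝ] E) : E →L[ℝ] E) (x - y)
        = G x - G y := by
      simp only [ContinuousLinearEquiv.coe_refl, ContinuousLinearMap.coe_id', id_eq]
      abel
    rw [h2]
    exact h1
  have hc : Subsingleton E ∨ (1 / 2 : ℝ≥0) <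
      ‖((ContinuousLinearEquiv.refl ℝ E).symm : E →L[ℝ] E)‖₊⁻¹ := by
    rcases subsingleton_or_nontrivial E with hs | hs
    · exact Or.inl hs
    · right
      have : ‖((ContinuousLinearEquiv.refl ℝ E).symm : E →L[ℝ] E)‖₊ = 1 := by
        rw [← NNReal.coe_inj]
        simp
      rw [this, inv_one]
      rw [← NNReal.coe_lt_coe]
      norm_num
  let e := hA.toHomeomorph _ hc
  have he : ∀ x, e x = x + G x := fun x => rfl
  have hsm : ContDiff ℝ ∞ (e : E → E) := by
    have : (e : E → E) = fun x => x + G x := funext he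
    rw [this]
    exact contDiff_id.add hG
  have hu : ∀ x, ∃ f' : E ≃L[ℝ] E, HasFDerivAt e (f' : E →L[ℝ] E) x := by
    intro x
    have h1 : ‖-fderiv ℝ G x‖ < 1 := by
      rw [norm_neg]
      exact lt_of_le_of_lt (h x) (by norm_num)
    let u := Units.oneSub (-fderiv ℝ G x) h1
    refine ⟨ContinuousLinearEquiv.unitsEquiv ℝ E u, ?_⟩
    have h2 : ((ContinuousLinearEquiv.unitsEquiv ℝ E u : E ≃L[ℝ] E) : E →L[ℝ] E) =
        ContinuousLinearMap.id ℝ E + fderiv ℝ G x := by
      ext v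
      show ((u : E →L[ℝ] E)) v = _
      have : (u : E →L[ℝ] E) = 1 - (-fderiv ℝ G x) := rfl
      rw [this]
      simp
    rw [h2]
    have h3 : (e : E → E) = fun x => x + G x := funext he
    rw [h3]
    exact (hasFDerivAt_id x).add (hG.differentiable hn x).hasFDerivAt
  choose f' hf' using hu
  refine ⟨e.toEquiv, hsm, ?_, he⟩
  exact e.contDiff_symm hf' hsm

/-- A smooth periodic family of vector fields with compact support (modulo `Λ`), which vanishes for `s = s₀`,
gives moves for `s` near `s₀`. -/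
theorem small_family [CompleteSpace E] {Λ : AddSubgroup E} (hΛ : Lat Λ) {O C : Set E} {G : ℝ × E → E}
    (hG : ContDiff ℝ ∞ G) {s₀ : ℝ} (h0 : ∀ x, G (s₀, x) = 0)
    (hper : ∀ m ∈ Λ, ∀ s x, G (s, x + m) = G (s, x)) (hC : IsCompact C) (hCO : C ⊆ O)
    (hsupp : ∀ s x, (∀ m ∈ Λ, x + m ∉ C) → G (s, x) = 0) :
    ∀ᶠ s in 𝓝 s₀, ∃ F : Equiv.Perm E, Move Λ O F ∧ ∀ x, F x = x + G (s, x) := by
  have hn : (∞ : WithTop ℕ∞) ≠ 0 := by simp
  -- the partial derivative
  let D : ℝ × E → (E →L[ℝ] E) := fun q => (fderiv ℝ G q).comp (ContinuousLinearMap.inr ℝ ℝ E)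
  have hDc : Continuous D := by
    have h1 : Continuous (fderiv ℝ G) := hG.continuous_fderiv hn
    exact h1.clm_comp continuous_const
  have hD : ∀ s x, HasFDerivAt (fun y => G (s, y)) (D (s, x)) x := by
    intro s x
    have h1 : HasFDerivAt G (fderiv ℝ G (s, x)) (s, x) := (hG.differentiable hn (s, x)).hasFDerivAt
    exact HasFDerivAt.comp x h1 (hasFDerivAt_prodMk_right s x)
  have hD0 : ∀ x, D (s₀, x) = 0 := by
    intro x
    have h1 : HasFDerivAt (fun y : E => G (s₀, y)) (0 : E →L[ℝ] E) x := by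
      have : (fun y : E => G (s₀, y)) = fun _ => (0 : E) := funext h0
      rw [this]
      exact hasFDerivAt_const _ _
    exact (hD s₀ x).unique h1
  have h1 : ∀ᶠ s in 𝓝 s₀, ∀ x ∈ C, ‖D (s, x)‖ < 1 / 2 := by
    refine hC.eventually_forall_of_forall_eventually ?_
    intro x _
    have h2 : ContinuousAt (fun q : ℝ × E => ‖D q‖) (s₀, x) := hDc.norm.continuousAt
    have h3 : ‖D (s₀, x)‖ < 1 / 2 := by rw [hD0, norm_zero]; norm_num
    exact h2.eventually (gt_mem_nhds h3)
  filter_upwards [h1] with s hs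
  have h2 : ∀ x, ‖fderiv ℝ (fun y => G (s, y)) x‖ ≤ 1 / 2 := by
    intro x
    by_cases hx : ∃ m ∈ Λ, x + m ∈ C
    · obtain ⟨m, hm, hx⟩ := hx
      have h3 : (fun y => G (s, y)) = fun y => G (s, y + m) := by
        ext y; rw [hper m hm]
      have h4 : HasFDerivAt (fun y => G (s, y)) (D (s, x + m)) x := by
        rw [h3]
        have h5 := hD s (x + m)
        have h6 : HasFDerivAt (fun y : E => y + m) (ContinuousLinearMap.id ℝ E) x :=
          (hasFDerivAt_id x).add_const m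
        have := HasFDerivAt.comp x h5 h6
        rw [ContinuousLinearMap.comp_id] at this
        exact this
      rw [h4.fderiv]
      exact (hs _ hx).le
    · have h3 : {x : E | ∃ m ∈ Λ, x + m ∈ C}ᶜ ∈ 𝓝 x :=
        (hΛ.isClosed_add hC).isOpen_compl.mem_nhds hx
      have h4 : (fun y => G (s, y)) =ᶠ[𝓝 x] fun _ => (0 : E) := by
        filter_upwards [h3] with y hy
        apply hsupp
        intro m hm hc
        exact hy ⟨m, hm, hc⟩
      rw [h4.fderiv_eq]
      simp
  have hGs : ContDiff ℝ ∞ fun y => G (s, y) := hG.comp (contDiff_const.prodMk contDiff_id)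
  obtain ⟨F, f1, f2, f3⟩ := small_perm hGs h2
  refine ⟨F, ⟨f1, f2, ?_, C, hC, hCO, ?_⟩, f3⟩
  · intro m hm x
    rw [f3, f3, hper m hm]
    abel
  · intro x hx
    rw [f3, hsupp s x hx, add_zero]

/-! ## the group of moves -/

theorem Move.refl (Λ : AddSubgroup E) (O : Set E) : Move Λ O (Equiv.refl E) :=
  ⟨contDiff_id, contDiff_id, fun _ _ _ => rfl, ∅, isCompact_empty, empty_subset _, fun _ _ => rfl⟩

theorem Move.symm {Λ : AddSubgroup E} {O : Set E} {F : Equiv.Perm E} (h : Move Λ O F) :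
    Move Λ O F.symm := by
  obtain ⟨C, h1, h2, h3⟩ := h.supp
  refine ⟨h.smooth_symm, h.smooth, ?_, C, h1, h2, ?_⟩
  · intro m hm x
    apply F.injective
    rw [Equiv.apply_symm_apply, h.comm m hm, Equiv.apply_symm_apply]
  · intro x hx
    rw [Equiv.symm_apply_eq]
    exact (h3 x hx).symm

theorem Move.trans {Λ : AddSubgroup E} {O : Set E} {F G : Equiv.Perm E} (h : Move Λ O F)
    (h' : Move Λ O G) : Move Λ O (F.trans G) := by
  obtain ⟨C, h1, h2, h3⟩ := h.supp
  obtain ⟨C', h1', h2', h3'⟩ := h'.supp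
  refine ⟨h'.smooth.comp h.smooth, h.smooth_symm.comp h'.smooth_symm, ?_, C ∪ C', h1.union h1',
    union_subset h2 h2', ?_⟩
  · intro m hm x
    rw [Equiv.trans_apply, Equiv.trans_apply, h.comm m hm, h'.comm m hm]
  · intro x hx
    rw [Equiv.trans_apply, h3 x fun m hm hc => hx m hm (Or.inl hc),
      h3' x fun m hm hc => hx m hm (Or.inr hc)]

theorem Move.mono {Λ : AddSubgroup E} {O O' : Set E} {F : Equiv.Perm E} (h : Move Λ O F)
    (hO : O ⊆ O') : Move Λ O' F := by
  obtain ⟨C, h1, h2, h3⟩ := h.supp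
  exact ⟨h.smooth, h.smooth_symm, h.comm, C, h1, h2.trans hO, h3⟩

end Pool.Agent.ISO
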