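import Pool.Agent.ISO.Core
import Pool.Agent.CSG.LDb

/-!
# ISO/Cod0: isotopy extension in codimension 0, on a neighbourhood of a compact set
-/

open scoped Manifold ContDiff Topology
open Set Filter

namespace Pool.Agent.ISO

theorem Cod0_disc {E : Type*} [NormedAddCommGroup E] {Λ : AddSubgroup E} (hΛ : Lat Λ) (d₀ : E) :
    ∀ᶠ d in 𝓝 d₀, d ∈ Λ → d = d₀ := by
  have hfin : {m : E | (m ∈ Λ ∧ ‖m‖ ≤ ‖d₀‖ + 1) ∧ m ≠ d₀}.Finite := (hΛ _).subset fun m hm => hm.1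
  have h1 : {m : E | (m ∈ Λ ∧ ‖m‖ ≤ ‖d₀‖ + 1) ∧ m ≠ d₀}ᶜ ∈ 𝓝 d₀ :=
    hfin.isClosed.isOpen_compl.mem_nhds fun h => h.2 rfl
  filter_upwards [h1, Metric.ball_mem_nhds d₀ one_pos] with d hd hd' hdΛ
  by_contra hne
  apply hd
  refine ⟨⟨hdΛ, ?_⟩, hne⟩
  have h2 : ‖d - d₀‖ < 1 := by rwa [Metric.mem_ball, dist_eq_norm] at hd'
  have h3 := norm_add_le (d - d₀) d₀
  rw [sub_add_cancel] at h3
  linarith

section
variable {V E : Type*} [NormedAddCommGroup V] [NormedSpace ℝ V] [FiniteDimensional ℝ V]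
    [NormedAddCommGroup E] [NormedSpace ℝ E] [FiniteDimensional ℝ E]

/-- local diffeomorphism from the derivative -/
theorem Cod0_ld {f : V → E} {W : Set V} (hW : IsOpen W) (hf : ∀ x ∈ W, ContDiffAt ℝ ∞ f x) {x : V}
    (hx : x ∈ W) (hb : Function.Bijective (fderiv ℝ f x)) :
    IsLocalDiffeomorphAt 𝓘(ℝ, V) 𝓘(ℝ, E) ∞ f x := by
  refine CSG.ld_of_fderiv ?_ ?_ ?_
  · filter_upwards [hW.mem_nhds hx] with y hy using hf y hy
  · exact (LinearEquiv.ofBijective (fderiv ℝ f x : V →ₗ[ℝ] E) hb).finrank_eq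
  · intro v hv
    apply hb.1
    rw [hv, map_zero]

/-- the neighbourhood where `f` is injective modulo the lattices -/
theorem Cod0_nbhd {Λ : AddSubgroup E} (hΛ : Lat Λ) {Λ' : AddSubgroup V} {O : Set E} (hO : IsOpen O)
    {W : Set V} (hW : IsOpen W) (hWp : ∀ x ∈ W, ∀ m ∈ Λ', x + m ∈ W) {f : V → E}
    (hf : ∀ x ∈ W, ContDiffAt ℝ ∞ f x)
    (hper : ∀ m' ∈ Λ', ∃ m ∈ Λ, ∀ x ∈ W, f (x + m') = f x + m)
    {C : Set V} (hC : IsCompact C) (hCW : C ⊆ W)
    (hbij : ∀ x ∈ C, Function.Bijective (fderiv ℝ f x))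
    (hinj : ∀ x ∈ C, ∀ x' ∈ C, ∀ m ∈ Λ, f x = f x' + m → ∃ m' ∈ Λ', x = x' + m')
    (hCO : ∀ x ∈ C, f x ∈ O) :
    ∃ U : Set V, IsOpen U ∧ C ⊆ U ∧ U ⊆ W ∧ (∀ x ∈ U, IsLocalDiffeomorphAt 𝓘(ℝ, V) 𝓘(ℝ, E) ∞ f x) ∧
      (∀ x ∈ U, ∀ x' ∈ U, ∀ m ∈ Λ, f x = f x' + m → ∃ m' ∈ Λ', x = x' + m') ∧ ∀ x ∈ U, f x ∈ O := by
  -- the pairs
  let B : Set (V × V) := interior {p : V × V | ∀ m ∈ Λ, f p.1 = f p.2 + m → ∃ m' ∈ Λ', p.1 = p.2 + m'}
  have hCB : C ×ˢ C ⊆ B := by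
    rintro ⟨x, x'⟩ ⟨hx, hx'⟩
    have hx : x ∈ C := hx
    have hx' : x' ∈ C := hx'
    rw [mem_interior_iff_mem_nhds]
    have hld := Cod0_ld hW hf (hCW hx) (hbij x hx)
    obtain ⟨N, hN, hNi⟩ := CSG.ld_injOn hld
    have hcx : ContinuousAt f x := (hf x (hCW hx)).continuousAt
    have hcx' : ContinuousAt f x' := (hf x' (hCW hx')).continuousAt
    have h1 : ContinuousAt (fun p : V × V => f p.1 - f p.2) (x, x') := by
      have e1 : ContinuousAt (fun p : V × V => f p.1) (x, x') :=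
        ContinuousAt.comp (g := f) (f := Prod.fst) (x := (x, x')) hcx continuousAt_fst
      have e2 : ContinuousAt (fun p : V × V => f p.2) (x, x') :=
        ContinuousAt.comp (g := f) (f := Prod.snd) (x := (x, x')) hcx' continuousAt_snd
      exact e1.sub e2
    have h2 := h1.eventually (Cod0_disc hΛ (f x - f x'))
    by_cases hex : (f x - f x') ∈ Λ
    · obtain ⟨m', hm', hxm⟩ := hinj x hx x' hx' _ hex (by abel)
      obtain ⟨m₁, hm₁, hfm⟩ := hper m' hm'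
      have hm1 : f x - f x' = m₁ := by
        rw [hxm, hfm x' (hCW hx')]; abel
      have h3 : ∀ᶠ p : V × V in 𝓝 (x, x'), p.1 ∈ N := continuousAt_fst.eventually hN
      have h4 : ∀ᶠ p : V × V in 𝓝 (x, x'), p.2 + m' ∈ N := by
        have e1 : ContinuousAt (fun p : V × V => p.2 + m') (x, x') :=
          continuousAt_snd.add continuousAt_const
        have e2 : N ∈ 𝓝 ((fun p : V × V => p.2 + m') (x, x')) := by
          show N ∈ 𝓝 (x' + m')
          rw [← hxm]; exact hN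
        exact e1.eventually e2
      have h5 : ∀ᶠ p : V × V in 𝓝 (x, x'), p.2 ∈ W := continuousAt_snd.eventually (hW.mem_nhds (hCW hx'))
      filter_upwards [h2, h3, h4, h5] with p p2 p3 p4 p5 m hm he
      have e1 : f p.1 - f p.2 = f x - f x' := p2 (by rw [he, add_sub_cancel_left]; exact hm)
      refine ⟨m', hm', hNi p3 p4 ?_⟩
      rw [hfm p.2 p5, ← hm1, ← e1]
      abel
    · filter_upwards [h2] with p p2 m hm he
      exfalso
      apply hex
      have e1 : f p.1 - f p.2 = f x - f x' := p2 (by rw [he, add_sub_cancel_left]; exact hm)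
      rw [← e1, he, add_sub_cancel_left]
      exact hm
  obtain ⟨U₁, U₂, hU₁, hU₂, hCU₁, hCU₂, hUB⟩ := generalized_tube_lemma hC hC isOpen_interior hCB
  let L : Set V := interior {x | IsLocalDiffeomorphAt 𝓘(ℝ, V) 𝓘(ℝ, E) ∞ f x}
  have hL : C ⊆ L := by
    intro x hx
    rw [mem_interior_iff_mem_nhds]
    exact CSG.ld_eventually (Cod0_ld hW hf (hCW hx) (hbij x hx))
  have hcont : ContinuousOn f W := fun x hx => (hf x hx).continuousAt.continuousWithinAt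
  have hOW : IsOpen (W ∩ f ⁻¹' O) := hcont.isOpen_inter_preimage hW hO
  refine ⟨U₁ ∩ U₂ ∩ L ∩ (W ∩ f ⁻¹' O), ((hU₁.inter hU₂).inter isOpen_interior).inter hOW, ?_, ?_, ?_, ?_, ?_⟩
  · intro x hx
    exact ⟨⟨⟨hCU₁ hx, hCU₂ hx⟩, hL hx⟩, hCW hx, hCO x hx⟩
  · exact fun x hx => hx.2.1
  · intro x hx
    have h1 : x ∈ {x | IsLocalDiffeomorphAt 𝓘(ℝ, V) 𝓘(ℝ, E) ∞ f x} := interior_subset hx.1.2
    exact h1
  · intro x hx x' hx' m hm he
    have := interior_subset (hUB (show (x, x') ∈ U₁ ×ˢ U₂ from ⟨hx.1.1.1, hx'.1.1.2⟩))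
    exact this m hm he
  · exact fun x hx => hx.2.2

/-- one small step -/
theorem Cod0_step {Λ : AddSubgroup E} (hΛ : Lat Λ) {Λ' : AddSubgroup V} {O : Set E} (hO : IsOpen O)
    {W : Set V} (hW : IsOpen W) (hWp : ∀ x ∈ W, ∀ m ∈ Λ', x + m ∈ W) {e : ℝ → V → E}
    (he : ∀ s, ∀ x ∈ W, ContDiffAt ℝ ∞ (fun q : ℝ × V => e q.1 q.2) (s, x))
    (hper : ∀ m' ∈ Λ', ∃ m ∈ Λ, ∀ s, ∀ x ∈ W, e s (x + m') = e s x + m)
    {C : Set V} (hC : IsCompact C) (hCW : C ⊆ W) (s₀ : ℝ)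
    (hbij : ∀ x ∈ C, Function.Bijective (fderiv ℝ (e s₀) x))
    (hinj : ∀ x ∈ C, ∀ x' ∈ C, ∀ m ∈ Λ, e s₀ x = e s₀ x' + m → ∃ m' ∈ Λ', x = x' + m')
    (hCO : ∀ x ∈ C, e s₀ x ∈ O) :
    ∀ᶠ s in 𝓝 s₀, ∃ (F : Equiv.Perm E) (U : Set V), Move Λ O F ∧ IsOpen U ∧ C ⊆ U ∧
      (∀ x ∈ U, F (e s₀ x) = e s x) ∧
      ∀ y, (∀ s₁, ∀ x ∈ W, ∀ m ∈ Λ, e s₁ x = y + m → ∀ s', e s' x = y + m) → F y = y := by
  have hCV : CompleteSpace E := FiniteDimensional.complete ℝ E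
  set f : V → E := e s₀ with hfdef
  have hf : ∀ x ∈ W, ContDiffAt ℝ ∞ f x := by
    intro x hx
    have h1 : f = (fun q : ℝ × V => e q.1 q.2) ∘ fun x => (s₀, x) := rfl
    rw [h1]
    exact ContDiffAt.comp x (he s₀ x hx) (contDiffAt_const.prodMk contDiffAt_id)
  obtain ⟨U₀, hU₀, hCU, hUW, hUld, hUinj, hUO⟩ := Cod0_nbhd hΛ hO hW hWp hf
    (fun m' hm' => by
      obtain ⟨m, hm, h⟩ := hper m' hm'
      exact ⟨m, hm, fun x hx => h s₀ x hx⟩) hC hCW hbij hinj hCO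
  classical
  let D : ℝ × E → E := fun q =>
    if h : ∃ x ∈ U₀, ∃ m ∈ Λ, q.2 = f x + m then e q.1 h.choose - f h.choose else 0
  let Y : Set E := {y | ∃ x ∈ U₀, ∃ m ∈ Λ, y = f x + m}
  have hD : ∀ s, ∀ x ∈ U₀, ∀ m ∈ Λ, D (s, f x + m) = e s x - f x := by
    intro s x hx m hm
    have h : ∃ x' ∈ U₀, ∃ m' ∈ Λ, (s, f x + m).2 = f x' + m' := ⟨x, hx, m, hm, rfl⟩
    have h1 : D (s, f x + m) = e s h.choose - f h.choose := by
      simp only [D]
      rw [dif_pos h]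
    obtain ⟨hx', m₂, hm₂, hy⟩ := h.choose_spec
    rw [h1]
    generalize h.choose = x' at hx' hy
    have hy : f x + m = f x' + m₂ := hy
    have h2 : f x' = f x + (m - m₂) := by
      rw [← add_sub_assoc, hy, add_sub_cancel_right]
    obtain ⟨m', hm', hxx⟩ := hUinj x' hx' x hx _ (Λ.sub_mem hm hm₂) h2
    obtain ⟨m₁, hm₁, h3⟩ := hper m' hm'
    rw [hxx, hfdef, h3 s x (hUW hx), h3 s₀ x (hUW hx)]
    abel
  have hD0 : ∀ s y, y ∉ Y → D (s, y) = 0 := by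
    intro s y hy
    simp only [D]
    rw [dif_neg]
    rintro ⟨x, hx, m, hm, h⟩
    exact hy ⟨x, hx, m, hm, h⟩
  have hDp : ∀ s y, ∀ m ∈ Λ, D (s, y + m) = D (s, y) := by
    intro s y m hm
    by_cases hy : y ∈ Y
    · obtain ⟨x, hx, m₁, hm₁, rfl⟩ := hy
      rw [hD s x hx m₁ hm₁, add_assoc, hD s x hx _ (Λ.add_mem hm₁ hm)]
    · rw [hD0 s y hy, hD0]
      rintro ⟨x, hx, m₁, hm₁, h⟩
      apply hy
      refine ⟨x, hx, m₁ - m, Λ.sub_mem hm₁ hm, ?_⟩
      rw [← add_sub_assoc, ← h, add_sub_cancel_right]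
  have hYo : IsOpen Y := by
    rw [isOpen_iff_mem_nhds]
    rintro y ⟨x, hx, m, hm, rfl⟩
    have h1 := CSG.ld_image_nhds (hUld x hx) (hU₀.mem_nhds hx)
    have h2 : ContinuousAt (fun y : E => y - m) (f x + m) := continuousAt_id.sub continuousAt_const
    have h3 : f '' U₀ ∈ 𝓝 ((fun y : E => y - m) (f x + m)) := by
      show f '' U₀ ∈ 𝓝 (f x + m - m)
      rw [add_sub_cancel_right]; exact h1
    filter_upwards [h2 h3] with y hy
    obtain ⟨x', hx', h4⟩ := hy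
    refine ⟨x', hx', m, hm, ?_⟩
    have h5 : f x' = y - m := h4
    rw [h5]; abel
  have hDs : ∀ s, ∀ y ∈ Y, ContDiffAt ℝ ∞ D (s, y) := by
    rintro s y ⟨x, hx, m, hm, rfl⟩
    -- local inverse
    have hl := hUld x hx
    have hg1 : ContMDiffAt 𝓘(ℝ, E) 𝓘(ℝ, V) ∞ hl.localInverse (f x) :=
      hl.localInverse_contMDiffAt
    have hg2 : hl.localInverse (f x) = x := hl.localInverse_left_inv hl.localInverse_mem_target
    have hg3 := hl.localInverse_eventuallyEq_right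
    have hg : ContDiffAt ℝ ∞ hl.localInverse (f x) := hg1.contDiffAt
    have hsub : ContDiffAt ℝ ∞ (fun q : ℝ × E => q.2 - m) (s, f x + m) :=
      contDiffAt_snd.sub contDiffAt_const
    have hval : (fun q : ℝ × E => q.2 - m) (s, f x + m) = f x := by
      show f x + m - m = f x
      abel
    have hinv : ContDiffAt ℝ ∞ (fun q : ℝ × E => hl.localInverse (q.2 - m)) (s, f x + m) := by
      have h1 : ContDiffAt ℝ ∞ hl.localInverse ((fun q : ℝ × E => q.2 - m) (s, f x + m)) := by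
        rw [hval]; exact hg
      exact ContDiffAt.comp (s, f x + m) h1 hsub
    have hmain : ContDiffAt ℝ ∞ (fun q : ℝ × E => e q.1 (hl.localInverse (q.2 - m)) - (q.2 - m))
        (s, f x + m) := by
      refine ContDiffAt.sub ?_ hsub
      have h1 : ContDiffAt ℝ ∞ (fun q : ℝ × E => (q.1, hl.localInverse (q.2 - m))) (s, f x + m) :=
        contDiffAt_fst.prodMk hinv
      have h2 : (fun q : ℝ × E => (q.1, hl.localInverse (q.2 - m))) (s, f x + m) = (s, x) := by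
        show (s, hl.localInverse (f x + m - m)) = (s, x)
        rw [add_sub_cancel_right, hg2]
      have h3 : ContDiffAt ℝ ∞ (fun q : ℝ × V => e q.1 q.2)
          ((fun q : ℝ × E => (q.1, hl.localInverse (q.2 - m))) (s, f x + m)) := by
        rw [h2]; exact he s x (hUW hx)
      exact ContDiffAt.comp (s, f x + m) h3 h1
    refine hmain.congr_of_eventuallyEq ?_
    have hev1 : ∀ᶠ q : ℝ × E in 𝓝 (s, f x + m), hl.localInverse (q.2 - m) ∈ U₀ := by
      have h1 := hinv.continuousAt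
      have h2 : U₀ ∈ 𝓝 ((fun q : ℝ × E => hl.localInverse (q.2 - m)) (s, f x + m)) := by
        show U₀ ∈ 𝓝 (hl.localInverse (f x + m - m))
        rw [add_sub_cancel_right, hg2]
        exact hU₀.mem_nhds hx
      exact h1.eventually h2
    have hev2 : ∀ᶠ q : ℝ × E in 𝓝 (s, f x + m), f (hl.localInverse (q.2 - m)) = q.2 - m := by
      have h1 := hsub.continuousAt
      have h2 : ∀ᶠ y in 𝓝 ((fun q : ℝ × E => q.2 - m) (s, f x + m)), (f ∘ hl.localInverse) y = id y := by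
        rw [hval]; exact hg3
      exact h1.eventually h2
    filter_upwards [hev1, hev2] with q q1 q2
    obtain ⟨s', y'⟩ := q
    have h5 : y' = f (hl.localInverse (y' - m)) + m := by
      rw [q2]; simp
    have h6 := hD s' _ q1 m hm
    rw [← h5] at h6
    rw [h6, q2]
  -- the cutoff
  have hcont : ContinuousOn f W := fun x hx => (hf x hx).continuousAt.continuousWithinAt
  have hfC : IsCompact (f '' C) := hC.image_of_continuousOn (hcont.mono hCW)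
  have hfCY : f '' C ⊆ Y ∩ O := by
    rintro _ ⟨x, hx, rfl⟩
    exact ⟨⟨x, hCU hx, 0, Λ.zero_mem, by rw [add_zero]⟩, hUO x (hCU hx)⟩
  obtain ⟨K₁, hK₁, hCK, hK₁Y⟩ := exists_compact_between hfC (hYo.inter hO) hfCY
  obtain ⟨χ, C₁, c1, c2, c3, c4, c5, c6⟩ := exists_cut (hYo.inter hO) hK₁ hK₁Y
  let S : E → ℝ := fun x => ∑ᶠ m : Λ, χ (x + m)
  have hS : ContDiff ℝ ∞ S := by
    have h1 := persum_smooth hΛ c2 (φ := fun q : ℝ × E => χ q.2) (c1.comp contDiff_snd)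
      (fun s x hx => c4 x hx)
    exact h1.comp (contDiff_const (c := (0 : ℝ)).prodMk contDiff_id)
  have hSp : ∀ m ∈ Λ, ∀ x, S (x + m) = S x := fun m hm x =>
    persum_per (fun q : ℝ × E => χ q.2) 0 x hm
  let φ : ℝ × E → E := fun q => χ q.2 • D q
  have hφ : ContDiff ℝ ∞ φ := by
    rw [contDiff_iff_contDiffAt]
    rintro ⟨s, y⟩
    by_cases hy : y ∈ Y
    · exact (c1.comp contDiff_snd).contDiffAt.smul (hDs s y hy)
    · have hyC : y ∉ C₁ := fun h => hy (c3 h).1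
      have h1 : φ =ᶠ[𝓝 (s, y)] fun _ => (0 : E) := by
        have h2 : ∀ᶠ q : ℝ × E in 𝓝 (s, y), q.2 ∈ C₁ᶜ :=
          (continuousAt_snd (p := (s, y))).eventually (c2.isClosed.isOpen_compl.mem_nhds hyC)
        filter_upwards [h2] with q hq
        simp only [φ]
        rw [c4 _ hq, zero_smul]
      exact contDiffAt_const.congr_of_eventuallyEq h1
  have hφs : ∀ s x, x ∉ C₁ → φ (s, x) = 0 := by
    intro s x hx
    simp only [φ]
    rw [c4 x hx, zero_smul]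
  let G0 : ℝ × E → E := fun q => ∑ᶠ m : Λ, φ (q.1, q.2 + m)
  have hG0 : ContDiff ℝ ∞ G0 := persum_smooth hΛ c2 hφ hφs
  have hG0p : ∀ m ∈ Λ, ∀ s x, G0 (s, x + m) = G0 (s, x) := fun m hm s x => persum_per φ s x hm
  have hG0S : ∀ s y, G0 (s, y) = S y • D (s, y) := by
    intro s y
    simp only [G0, S]
    have h2 : ∀ m : Λ, φ (s, y + m) = χ (y + m) • D (s, y) := by
      intro m
      simp only [φ]
      rw [hDp s y m m.2]
    rw [finsum_congr h2]
    have hfin : (Function.support fun m : Λ => χ (y + (m : E))).Finite := by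
      refine (persum_fin hΛ c2 y).subset ?_
      intro m hm
      refine ⟨y, Metric.mem_ball_self one_pos, ?_⟩
      by_contra hc
      exact hm (c4 _ hc)
    rw [finsum_smul]
  let r : ℝ → ℝ := fun t => t⁻¹ * Real.smoothTransition (2 * t - 1)
  have hS1 : ∀ y ∈ K₁, 1 ≤ S y := by
    intro y hy
    have hfin : (Function.support fun m : Λ => χ (y + (m : E))).Finite := by
      refine (persum_fin hΛ c2 y).subset ?_
      intro m hm
      refine ⟨y, Metric.mem_ball_self one_pos, ?_⟩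
      by_contra hc
      exact hm (c4 _ hc)
    have h3 : χ (y + ((0 : Λ) : E)) ≤ ∑ᶠ m : Λ, χ (y + (m : E)) :=
      single_le_finsum (0 : Λ) hfin (fun m => c6 _)
    have h4 : χ (y + ((0 : Λ) : E)) = 1 := by
      rw [AddSubgroup.coe_zero, add_zero]
      exact c5 _ hy
    rw [h4] at h3
    exact h3
  have hsm := small_family hΛ (O := O) (C := C₁) (G := fun q => r (S q.2) • G0 q)
    ((rho_smooth.comp (hS.comp contDiff_snd)).smul hG0) (s₀ := s₀)
    (by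
      intro y
      show r (S y) • G0 (s₀, y) = 0
      rw [hG0S]
      by_cases hy : y ∈ Y
      · obtain ⟨x, hx, m, hm, rfl⟩ := hy
        rw [hD s₀ x hx m hm, hfdef, sub_self, smul_zero, smul_zero]
      · rw [hD0 s₀ y hy, smul_zero, smul_zero])
    (by
      intro m hm s x
      show r (S (x + m)) • G0 (s, x + m) = r (S x) • G0 (s, x)
      rw [hSp m hm, hG0p m hm]) c2 (fun y hy => (c3 hy).2)
    (by
      intro s x hx
      show r (S x) • G0 (s, x) = 0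
      have : G0 (s, x) = 0 := by
        simp only [G0]
        apply finsum_eq_zero_of_forall_eq_zero
        intro m
        exact hφs _ _ (hx m m.2)
      rw [this, smul_zero])
  filter_upwards [hsm] with s hs
  obtain ⟨F, hF, hFx⟩ := hs
  have hFx : ∀ y, F y = y + r (S y) • G0 (s, y) := hFx
  refine ⟨F, U₀ ∩ f ⁻¹' interior K₁, hF, ?_, ?_, ?_, ?_⟩
  · have h1 : ContinuousOn f U₀ := hcont.mono hUW
    exact h1.isOpen_inter_preimage hU₀ isOpen_interior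
  · intro x hx
    exact ⟨hCU hx, hCK ⟨x, hx, rfl⟩⟩
  · rintro x ⟨hx, hxK⟩
    rw [hFx, hG0S]
    have h1 : f x ∈ K₁ := interior_subset hxK
    have h2 := hD s x hx 0 Λ.zero_mem
    rw [add_zero] at h2
    have h3 := hS1 _ h1
    have h4 : r (S (f x)) = (S (f x))⁻¹ := by
      simp only [r]
      rw [Real.smoothTransition.one_of_one_le (by linarith), mul_one]
    rw [h2, h4, smul_smul, inv_mul_cancel₀ (by linarith), one_smul]
    abel
  · intro y hy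
    rw [hFx, hG0S]
    have : D (s, y) = 0 := by
      by_cases hyY : y ∈ Y
      · obtain ⟨x, hx, m, hm, rfl⟩ := hyY
        rw [hD s x hx m hm]
        have h1 := hy s₀ x (hUW hx) (-m) (Λ.neg_mem hm) (by rw [add_neg_cancel_right])
        rw [h1 s, add_neg_cancel_right, sub_self]
      · exact hD0 s y hyY
    rw [this, smul_zero, smul_zero, add_zero]

/-- **Isotopy extension in codimension 0.** -/
theorem cod0 {Λ : AddSubgroup E} (hΛ : Lat Λ) {Λ' : AddSubgroup V} {O : Set E} (hO : IsOpen O)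
    {W : Set V} (hW : IsOpen W) (hWp : ∀ x ∈ W, ∀ m ∈ Λ', x + m ∈ W) {e : ℝ → V → E}
    (he : ∀ s ∈ Icc (0 : ℝ) 1, ∀ x ∈ W, ContDiffAt ℝ ∞ (fun q : ℝ × V => e q.1 q.2) (s, x))
    (hper : ∀ m' ∈ Λ', ∃ m ∈ Λ, ∀ s ∈ Icc (0 : ℝ) 1, ∀ x ∈ W, e s (x + m') = e s x + m)
    {C : Set V} (hC : IsCompact C) (hCW : C ⊆ W)
    (hbij : ∀ s ∈ Icc (0 : ℝ) 1, ∀ x ∈ C, Function.Bijective (fderiv ℝ (e s) x))
    (hinj : ∀ s ∈ Icc (0 : ℝ) 1, ∀ x ∈ C, ∀ x' ∈ C, ∀ m ∈ Λ, e s x = e s x' + m → ∃ m' ∈ Λ', x = x' + m')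
    (hCO : ∀ s ∈ Icc (0 : ℝ) 1, ∀ x ∈ C, e s x ∈ O) :
    ∃ (F : Equiv.Perm E) (U : Set V), Move Λ O F ∧ IsOpen U ∧ C ⊆ U ∧ (∀ x ∈ U, F (e 0 x) = e 1 x) ∧
      ∀ y, (∀ s ∈ Icc (0 : ℝ) 1, ∀ x ∈ W, ∀ m ∈ Λ, e s x = y + m → ∀ s' ∈ Icc (0 : ℝ) 1, e s' x = y + m) →
        F y = y := by
  have hσ : ∀ s, Real.smoothTransition s ∈ Icc (0 : ℝ) 1 := fun s =>
    ⟨Real.smoothTransition.nonneg s, Real.smoothTransition.le_one s⟩
  let e' : ℝ → V → E := fun s x => e (Real.smoothTransition s) x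
  have he' : ∀ s, ∀ x ∈ W, ContDiffAt ℝ ∞ (fun q : ℝ × V => e' q.1 q.2) (s, x) := by
    intro s x hx
    have e1 : ContDiffAt ℝ ∞ (fun q : ℝ × V => (Real.smoothTransition q.1, q.2)) (s, x) :=
      ((Real.smoothTransition.contDiff.comp contDiff_fst).prodMk contDiff_snd).contDiffAt
    exact ContDiffAt.comp (s, x) (he _ (hσ s) x hx) e1
  have hper' : ∀ m' ∈ Λ', ∃ m ∈ Λ, ∀ s, ∀ x ∈ W, e' s (x + m') = e' s x + m := by
    intro m' hm'
    obtain ⟨m, hm, h⟩ := hper m' hm'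
    exact ⟨m, hm, fun s x hx => h _ (hσ s) x hx⟩
  have key := isPreconnected_univ.induction₂
    (fun s s' : ℝ => ∃ (F : Equiv.Perm E) (U : Set V), Move Λ O F ∧ IsOpen U ∧ C ⊆ U ∧
      (∀ x ∈ U, F (e' s x) = e' s' x) ∧
      ∀ y, (∀ s₁, ∀ x ∈ W, ∀ m ∈ Λ, e' s₁ x = y + m → ∀ s', e' s' x = y + m) → F y = y)
    (by
      intro s₀ _
      rw [nhdsWithin_univ]
      exact Cod0_step hΛ hO hW hWp he' hper' hC hCW s₀ (hbij _ (hσ s₀)) (hinj _ (hσ s₀)) (hCO _ (hσ s₀)))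
    (by
      rintro s₁ s₂ s₃ - - - ⟨F, U, f1, f2, f3, f4, f5⟩ ⟨G, U', g1, g2, g3, g4, g5⟩
      refine ⟨F.trans G, U ∩ U', f1.trans g1, f2.inter g2, subset_inter f3 g3, ?_, ?_⟩
      · intro x hx
        rw [Equiv.trans_apply, f4 x hx.1, g4 x hx.2]
      · intro y hy
        rw [Equiv.trans_apply, f5 y hy, g5 y hy])
    (by
      rintro s₁ s₂ - - ⟨F, U, f1, f2, f3, f4, f5⟩
      refine ⟨F.symm, U, f1.symm, f2, f3, ?_, ?_⟩
      · intro x hx
        rw [Equiv.symm_apply_eq, f4 x hx]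
      · intro y hy
        rw [Equiv.symm_apply_eq, f5 y hy])
    (mem_univ (0 : ℝ)) (mem_univ (1 : ℝ))
  obtain ⟨F, U, f1, f2, f3, f4, f5⟩ := key
  refine ⟨F, U, f1, f2, f3, ?_, ?_⟩
  · intro x hx
    have := f4 x hx
    simp only [e', Real.smoothTransition.zero, Real.smoothTransition.one] at this
    exact this
  · intro y hy
    apply f5
    intro s₁ x hx m hm h s'
    exact hy _ (hσ s₁) x hx m hm h _ (hσ s')

end

end Pool.Agent.ISO
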