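import Pool.Agent.ISO.Field

/-!
# ISO/Fam: isotopy extension for families of embeddings of any dimension
-/

open scoped Manifold ContDiff Topology NNReal
open Set Filter

namespace Pool.Agent.ISO

variable {E : Type*} [NormedAddCommGroup E] [NormedSpace ℝ E] [FiniteDimensional ℝ E]
  {F : Type*} [NormedAddCommGroup F] [NormedSpace ℝ F] [FiniteDimensional ℝ F]

theorem Fam_interp {Λ : AddSubgroup E} (hΛ : Lat Λ) {k : F → E} (hk : ContDiff ℝ ∞ k) {J : Set F}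
    {f : ℝ × F → E} (hf : ContDiff ℝ ∞ f) (himm : ∀ l ∈ J, ∀ v, fderiv ℝ k l v = 0 → v = 0)
    (hred : ∀ l₀ ∈ J, ∃ J₀ : Set F, IsCompact J₀ ∧ J₀ ⊆ J ∧
      (∀ l ∈ J, ∃ l₁ ∈ J₀, (∃ m ∈ Λ, k l = k l₁ + m) ∧ ∀ s, f (s, l) = f (s, l₁)) ∧
      ∀ l₁ ∈ J₀, ∀ m ∈ Λ, k l₁ = k l₀ + m → l₁ = l₀) :
    ∃ G : ℝ × E → E, ContDiff ℝ ∞ G ∧ ∀ s, ∀ l ∈ J, ∀ m ∈ Λ, G (s, k l + m) = f (s, l) := by
  let T : ℝ × E → Set E := fun q => {y | ∀ l ∈ J, ∀ m ∈ Λ, q.2 = k l + m → y = f (q.1, l)}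
  have hconv : ∀ q, Convex ℝ (T q) := by
    intro q y hy y' hy' a b _ _ hab l hl m hm he
    rw [hy l hl m hm he, hy' l hl m hm he, ← add_smul, hab, one_smul]
  have hloc : ∀ q : ℝ × E, ∃ U ∈ 𝓝 q, ∃ g : ℝ × E → E,
      ContMDiffOn 𝓘(ℝ, ℝ × E) 𝓘(ℝ, E) ∞ g U ∧ ∀ y ∈ U, g y ∈ T y := by
    rintro ⟨s₀, x₀⟩
    by_cases hA : ∃ l ∈ J, ∃ m ∈ Λ, x₀ = k l + m
    · obtain ⟨l₀, hl₀, m₀, hm₀, hx₀⟩ := hA
      obtain ⟨J₀, hJ₀, hJJ, hJa, hJb⟩ := hred l₀ hl₀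
      -- a linear left inverse of the derivative
      obtain ⟨α', hα'⟩ := LinearMap.exists_leftInverse_of_injective (fderiv ℝ k l₀ : F →ₗ[ℝ] E)
        (LinearMap.ker_eq_bot'.2 (fun v hv => himm l₀ hl₀ v hv))
      let α : E →L[ℝ] F := LinearMap.toContinuousLinearMap α'
      have hα : ∀ v, α (fderiv ℝ k l₀ v) = v := fun v => LinearMap.congr_fun hα' v
      have hφ : ContDiff ℝ ∞ fun l => α (k l) := α.contDiff.comp hk
      have hld : IsLocalDiffeomorphAt 𝓘(ℝ, F) 𝓘(ℝ, F) ∞ (fun l => α (k l)) l₀ := by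
        refine CSG.ld_of_fderiv (Eventually.of_forall fun y => hφ.contDiffAt) rfl ?_
        intro v hv
        have h1 : HasFDerivAt k (fderiv ℝ k l₀) l₀ := (hk.differentiable (by simp) l₀).hasFDerivAt
        have h2 : HasFDerivAt (fun l => α (k l)) (α.comp (fderiv ℝ k l₀)) l₀ :=
          α.hasFDerivAt.comp l₀ h1
        rw [h2.fderiv] at hv
        have h3 : α (fderiv ℝ k l₀ v) = 0 := hv
        rwa [hα] at h3
      obtain ⟨Φ, hΦ, hΦe⟩ := hld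
      -- the bad sets
      let Z : Set E := {x | ∃ c ∈ k '' (J₀ ∩ Φ.sourceᶜ), ∃ m ∈ (Λ : Set E), x = c + m}
      let Z' : Set E := {x | ∃ c ∈ k '' J₀, ∃ m ∈ {m : E | m ∈ Λ ∧ m ≠ m₀}, x = c + m}
      have hZ : IsClosed Z := by
        refine hΛ.isClosed_add_sub (fun m hm => hm) ?_
        exact (hJ₀.inter_right Φ.open_source.isClosed_compl).image hk.continuous
      have hZ' : IsClosed Z' :=
        hΛ.isClosed_add_sub (fun m hm => hm.1) (hJ₀.image hk.continuous)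
      have hxZ : x₀ ∉ Z := by
        rintro ⟨_, ⟨l₁, ⟨h1, h2⟩, rfl⟩, m, hm, he⟩
        apply h2
        have : l₁ = l₀ := by
          apply hJb l₁ h1 (m₀ - m) (Λ.sub_mem hm₀ hm)
          rw [hx₀] at he
          have : k l₁ = k l₁ + m - m := by abel
          rw [this, ← he]; abel
        rw [this]; exact hΦ
      have hxZ' : x₀ ∉ Z' := by
        rintro ⟨_, ⟨l₁, h1, rfl⟩, m, ⟨hm, hm'⟩, he⟩
        apply hm'
        have : l₁ = l₀ := by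
          apply hJb l₁ h1 (m₀ - m) (Λ.sub_mem hm₀ hm)
          rw [hx₀] at he
          have : k l₁ = k l₁ + m - m := by abel
          rw [this, ← he]; abel
        rw [this, hx₀] at he
        exact (add_left_cancel he).symm
      let L : E → F := fun x => α (x - m₀)
      have hLc : Continuous L := α.continuous.comp (continuous_id.sub continuous_const)
      have hLs : ContDiff ℝ ∞ L := α.contDiff.comp (contDiff_id.sub contDiff_const)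
      have hV : IsOpen (L ⁻¹' Φ.target ∩ (Zᶜ ∩ Z'ᶜ)) :=
        (Φ.open_target.preimage hLc).inter (hZ.isOpen_compl.inter hZ'.isOpen_compl)
      have hxL : L x₀ ∈ Φ.target := by
        have : L x₀ = Φ l₀ := by
          rw [← hΦe hΦ]
          simp [L, hx₀]
        rw [this]
        exact Φ.map_source hΦ
      refine ⟨univ ×ˢ (L ⁻¹' Φ.target ∩ (Zᶜ ∩ Z'ᶜ)),
        prod_mem_nhds univ_mem (hV.mem_nhds ⟨hxL, hxZ, hxZ'⟩),
        fun q => f (q.1, Φ.symm (L q.2)), ?_, ?_⟩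
      · rintro ⟨s, x⟩ ⟨-, hx, -⟩
        have h1 : ContMDiffAt 𝓘(ℝ, F) 𝓘(ℝ, F) ∞ Φ.symm (L x) :=
          (Φ.contMDiffOn_invFun (L x) hx).contMDiffAt (Φ.open_target.mem_nhds hx)
        have h2 : ContDiffAt ℝ ∞ Φ.symm (L x) := contMDiffAt_iff_contDiffAt.1 h1
        have h3 : ContDiffAt ℝ ∞ (fun q : ℝ × E => Φ.symm (L q.2)) (s, x) := by
          have h4 : ContDiffAt ℝ ∞ (fun q : ℝ × E => L q.2) (s, x) :=
            (hLs.comp contDiff_snd).contDiffAt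
          exact ContDiffAt.comp (s, x) h2 h4
        have h5 : ContDiffAt ℝ ∞ (fun q : ℝ × E => f (q.1, Φ.symm (L q.2))) (s, x) :=
          ContDiffAt.comp (s, x) hf.contDiffAt (contDiffAt_fst.prodMk h3)
        exact h5.contMDiffAt.contMDiffWithinAt
      · rintro ⟨s, x⟩ ⟨-, hx, hx1, hx2⟩ l hl m hm he
        simp only at he
        obtain ⟨l₁, hl₁, ⟨m₁, hm₁, hkl⟩, hfl⟩ := hJa l hl
        rw [hfl s]
        have he' : x = k l₁ + (m₁ + m) := by rw [he, hkl]; abel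
        have hm' : m₁ + m = m₀ := by
          by_contra hc
          exact hx2 ⟨k l₁, ⟨l₁, hl₁, rfl⟩, m₁ + m, ⟨Λ.add_mem hm₁ hm, hc⟩, he'⟩
        have hs : l₁ ∈ Φ.source := by
          by_contra hc
          exact hx1 ⟨k l₁, ⟨l₁, ⟨hl₁, hc⟩, rfl⟩, m₁ + m, Λ.add_mem hm₁ hm, he'⟩
        have hL : L x = Φ l₁ := by
          rw [← hΦe hs]
          simp only [L]
          rw [he', hm', add_sub_cancel_right]
        show f (s, Φ.symm (L x)) = _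
        rw [hL]
        congr 2
        exact Φ.left_inv hs
    · by_cases hJ : J.Nonempty
      · obtain ⟨l₀, hl₀⟩ := hJ
        obtain ⟨J₀, hJ₀, hJJ, hJa, hJb⟩ := hred l₀ hl₀
        have hZ : IsClosed {x : E | ∃ c ∈ k '' J₀, ∃ m ∈ (Λ : Set E), x = c + m} :=
          hΛ.isClosed_add_sub (fun m hm => hm) (hJ₀.image hk.continuous)
        have hZ2 : IsClosed {x : E | ∃ l ∈ J, ∃ m ∈ Λ, x = k l + m} := by
          have : {x : E | ∃ l ∈ J, ∃ m ∈ Λ, x = k l + m} =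
              {x : E | ∃ c ∈ k '' J₀, ∃ m ∈ (Λ : Set E), x = c + m} := by
            ext x
            constructor
            · rintro ⟨l, hl, m, hm, rfl⟩
              obtain ⟨l₁, hl₁, ⟨m₁, hm₁, hkl⟩, -⟩ := hJa l hl
              exact ⟨k l₁, ⟨l₁, hl₁, rfl⟩, m₁ + m, Λ.add_mem hm₁ hm, by rw [hkl]; abel⟩
            · rintro ⟨_, ⟨l, hl, rfl⟩, m, hm, rfl⟩
              exact ⟨l, hJJ hl, m, hm, rfl⟩
          rw [this]; exact hZ
        refine ⟨univ ×ˢ {x : E | ∃ l ∈ J, ∃ m ∈ Λ, x = k l + m}ᶜ,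
          prod_mem_nhds univ_mem (hZ2.isOpen_compl.mem_nhds hA), fun _ => 0, contMDiffOn_const, ?_⟩
        rintro ⟨s, x⟩ ⟨-, hx⟩ l hl m hm he
        exact absurd ⟨l, hl, m, hm, he⟩ hx
      · refine ⟨univ, univ_mem, fun _ => 0, contMDiffOn_const, ?_⟩
        rintro ⟨s, x⟩ - l hl
        exact absurd ⟨l, hl⟩ hJ
  obtain ⟨g, hg⟩ := exists_contMDiffMap_forall_mem_convex_of_local (I := 𝓘(ℝ, ℝ × E)) (n := (⊤ : ℕ∞)) hconv
    (by exact hloc)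
  refine ⟨g, g.contMDiff.contDiff, ?_⟩
  intro s l hl m hm
  exact hg (s, k l + m) l hl m hm rfl

theorem Fam_field {Λ : AddSubgroup E} (hΛ : Lat Λ) {O : Set E} (hO : IsOpen O) {k : F → E}
    (hk : ContDiff ℝ ∞ k) {J : Set F} {f : ℝ × F → E} (hf : ContDiff ℝ ∞ f)
    (himm : ∀ l ∈ J, ∀ v, fderiv ℝ k l v = 0 → v = 0)
    (hred : ∀ l₀ ∈ J, ∃ J₀ : Set F, IsCompact J₀ ∧ J₀ ⊆ J ∧
      (∀ l ∈ J, ∃ l₁ ∈ J₀, (∃ m ∈ Λ, k l = k l₁ + m) ∧ ∀ s, f (s, l) = f (s, l₁)) ∧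
      ∀ l₁ ∈ J₀, ∀ m ∈ Λ, k l₁ = k l₀ + m → l₁ = l₀)
    {J₁ : Set F} (hJ₁ : IsCompact J₁) (hJO : ∀ l ∈ J₁, k l ∈ O)
    (hJ : ∀ l ∈ J, (∀ s, f (s, l) = 0) ∨ ∃ l₁ ∈ J₁, ∃ m ∈ Λ, k l = k l₁ + m) :
    ∃ (G : ℝ × E → E) (C : Set E), ContDiff ℝ ∞ G ∧ (∀ m ∈ Λ, ∀ s x, G (s, x + m) = G (s, x)) ∧
      IsCompact C ∧ C ⊆ O ∧ (∀ s x, (∀ m ∈ Λ, x + m ∉ C) → G (s, x) = 0) ∧
      ∀ s, ∀ l ∈ J, G (s, k l) = f (s, l) := by
  obtain ⟨g, g1, g2⟩ := Fam_interp hΛ hk hf himm hred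
  obtain ⟨χ, C, c1, c2, c3, c4, c5, c6⟩ := exists_cut hO (hJ₁.image hk.continuous)
    (by rintro _ ⟨l, hl, rfl⟩; exact hJO l hl)
  let S : E → ℝ := fun x => ∑ᶠ m : Λ, χ (x + m)
  have hS : ContDiff ℝ ∞ S := by
    have h1 := persum_smooth hΛ c2 (φ := fun q : ℝ × E => χ q.2) (c1.comp contDiff_snd)
      (fun s x hx => c4 x hx)
    exact h1.comp (contDiff_const (c := (0 : ℝ)).prodMk contDiff_id)
  have hSp : ∀ m ∈ Λ, ∀ x, S (x + m) = S x := fun m hm x =>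
    persum_per (fun q : ℝ × E => χ q.2) 0 x hm
  let G0 : ℝ × E → E := fun q => ∑ᶠ m : Λ, χ (q.2 + m) • g (q.1, q.2 + m)
  have hG0 : ContDiff ℝ ∞ G0 := persum_smooth hΛ c2 (φ := fun q : ℝ × E => χ q.2 • g q)
    ((c1.comp contDiff_snd).smul g1) (fun s x hx => by simp only [c4 x hx, zero_smul])
  have hG0p : ∀ m ∈ Λ, ∀ s x, G0 (s, x + m) = G0 (s, x) := fun m hm s x =>
    persum_per (fun q : ℝ × E => χ q.2 • g q) s x hm
  let r : ℝ → ℝ := fun t => t⁻¹ * Real.smoothTransition (2 * t - 1)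
  refine ⟨fun q => r (S q.2) • G0 q, C, ?_, ?_, c2, c3, ?_, ?_⟩
  · exact (rho_smooth.comp (hS.comp contDiff_snd)).smul hG0
  · intro m hm s x
    simp only
    rw [hSp m hm, hG0p m hm]
  · intro s x hx
    have : G0 (s, x) = 0 := by
      simp only [G0]
      apply finsum_eq_zero_of_forall_eq_zero
      intro m
      rw [c4 _ (hx m m.2), zero_smul]
    simp only
    rw [this, smul_zero]
  · intro s l hl
    have h1 : G0 (s, k l) = S (k l) • f (s, l) := by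
      simp only [G0, S]
      have h2 : ∀ m : Λ, χ (k l + m) • g (s, k l + m) = χ (k l + m) • f (s, l) := by
        intro m
        rw [g2 s l hl m m.2]
      rw [finsum_congr h2]
      have hfin : (Function.support fun m : Λ => χ (k l + (m : E))).Finite := by
        refine (persum_fin hΛ c2 (k l)).subset ?_
        intro m hm
        refine ⟨k l, Metric.mem_ball_self one_pos, ?_⟩
        by_contra hc
        exact hm (c4 _ hc)
      rw [finsum_smul]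
    simp only
    rw [h1]
    rcases hJ l hl with h0 | ⟨l₁, hl₁, m₁, hm₁, hkl⟩
    · rw [h0 s, smul_zero, smul_zero]
    · have h2 : 1 ≤ S (k l) := by
        rw [hkl, hSp m₁ hm₁]
        have hfin : (Function.support fun m : Λ => χ (k l₁ + (m : E))).Finite := by
          refine (persum_fin hΛ c2 (k l₁)).subset ?_
          intro m hm
          refine ⟨k l₁, Metric.mem_ball_self one_pos, ?_⟩
          by_contra hc
          exact hm (c4 _ hc)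
        have h3 : χ (k l₁ + ((0 : Λ) : E)) ≤ ∑ᶠ m : Λ, χ (k l₁ + (m : E)) :=
          single_le_finsum (0 : Λ) hfin (fun m => c6 _)
        have h4 : χ (k l₁ + ((0 : Λ) : E)) = 1 := by
          rw [AddSubgroup.coe_zero, add_zero]
          exact c5 _ ⟨l₁, hl₁, rfl⟩
        rw [h4] at h3
        exact h3
      have h3 : r (S (k l)) = (S (k l))⁻¹ := by
        simp only [r]
        rw [Real.smoothTransition.one_of_one_le (by linarith), mul_one]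
      rw [h3, smul_smul, inv_mul_cancel₀ (by linarith), one_smul]

/-- One small step of an isotopy. -/
theorem Fam_step {Λ : AddSubgroup E} (hΛ : Lat Λ) {O : Set E} (hO : IsOpen O) {k : ℝ → F → E}
    (hk : ContDiff ℝ ∞ fun q : ℝ × F => k q.1 q.2) {J : Set F} (s₀ : ℝ)
    (himm : ∀ l ∈ J, ∀ v, fderiv ℝ (k s₀) l v = 0 → v = 0)
    (hred : ∀ l₀ ∈ J, ∃ J₀ : Set F, IsCompact J₀ ∧ J₀ ⊆ J ∧
      (∀ l ∈ J, ∃ l₁ ∈ J₀, ∃ m ∈ Λ, ∀ s, k s l = k s l₁ + m) ∧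
      ∀ l₁ ∈ J₀, ∀ m ∈ Λ, k s₀ l₁ = k s₀ l₀ + m → l₁ = l₀)
    {J₁ : Set F} (hJ₁ : IsCompact J₁) (hJO : ∀ l ∈ J₁, k s₀ l ∈ O)
    (hJ : ∀ l ∈ J, (∀ s, k s l = k s₀ l) ∨ ∃ l₁ ∈ J₁, ∃ m ∈ Λ, k s₀ l = k s₀ l₁ + m) :
    ∀ᶠ s in 𝓝 s₀, ∃ G : Equiv.Perm E, Move Λ O G ∧ ∀ l ∈ J, G (k s₀ l) = k s l := by
  have : CompleteSpace E := FiniteDimensional.complete ℝ E
  have hk0 : ContDiff ℝ ∞ (k s₀) := by
    have : k s₀ = (fun q : ℝ × F => k q.1 q.2) ∘ fun l => (s₀, l) := rfl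
    rw [this]
    exact hk.comp (contDiff_const.prodMk contDiff_id)
  obtain ⟨G, C, g1, g2, g3, g4, g5, g6⟩ := Fam_field hΛ hO hk0 (J := J)
    (f := fun q : ℝ × F => k q.1 q.2 - k s₀ q.2)
    (hk.sub (hk0.comp contDiff_snd)) himm
    (by
      intro l₀ hl₀
      obtain ⟨J₀, h1, h2, h3, h4⟩ := hred l₀ hl₀
      refine ⟨J₀, h1, h2, ?_, h4⟩
      intro l hl
      obtain ⟨l₁, hl₁, m, hm, he⟩ := h3 l hl
      refine ⟨l₁, hl₁, ⟨m, hm, he s₀⟩, ?_⟩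
      intro s
      show k s l - k s₀ l = k s l₁ - k s₀ l₁
      rw [he s, he s₀]
      abel)
    hJ₁ hJO
    (by
      intro l hl
      rcases hJ l hl with h | h
      · left
        intro s
        show k s l - k s₀ l = 0
        rw [h s, sub_self]
      · right; exact h)
  have key := small_family hΛ (O := O) (C := C) (G := fun q : ℝ × E => G q - G (s₀, q.2)) (s₀ := s₀)
    (g1.sub (g1.comp (contDiff_const.prodMk contDiff_snd))) (fun x => by simp)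
    (fun m hm s x => by
      show G (s, x + m) - G (s₀, x + m) = G (s, x) - G (s₀, x)
      rw [g2 m hm, g2 m hm]) g3 g4
    (fun s x hx => by
      show G (s, x) - G (s₀, x) = 0
      rw [g5 s x hx, g5 s₀ x hx, sub_self])
  filter_upwards [key] with s hs
  obtain ⟨H, f1, f2⟩ := hs
  refine ⟨H, f1, ?_⟩
  intro l hl
  rw [f2]
  show k s₀ l + (G (s, k s₀ l) - G (s₀, k s₀ l)) = k s l
  rw [g6 s l hl, g6 s₀ l hl]
  simp

/-- small steps, all parameters `s` -/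
theorem Fam_steps {Λ : AddSubgroup E} (hΛ : Lat Λ) {O : Set E} (hO : IsOpen O) {k : ℝ → F → E}
    (hk : ContDiff ℝ ∞ fun q : ℝ × F => k q.1 q.2) {J : Set F}
    (himm : ∀ s, ∀ l ∈ J, ∀ v, fderiv ℝ (k s) l v = 0 → v = 0)
    (hred : ∀ s₀, ∀ l₀ ∈ J, ∃ J₀ : Set F, IsCompact J₀ ∧ J₀ ⊆ J ∧
      (∀ l ∈ J, ∃ l₁ ∈ J₀, ∃ m ∈ Λ, ∀ s, k s l = k s l₁ + m) ∧
      ∀ l₁ ∈ J₀, ∀ m ∈ Λ, k s₀ l₁ = k s₀ l₀ + m → l₁ = l₀)
    {J₁ : Set F} (hJ₁ : IsCompact J₁) (hJO : ∀ s, ∀ l ∈ J₁, k s l ∈ O)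
    (hJ : ∀ l ∈ J, (∀ s s', k s l = k s' l) ∨ ∃ l₁ ∈ J₁, ∃ m ∈ Λ, ∀ s, k s l = k s l₁ + m) (s s' : ℝ) :
    ∃ G : Equiv.Perm E, Move Λ O G ∧ ∀ l ∈ J, G (k s l) = k s' l := by
  refine isPreconnected_univ.induction₂
    (fun s s' => ∃ G : Equiv.Perm E, Move Λ O G ∧ ∀ l ∈ J, G (k s l) = k s' l) ?_ ?_ ?_
    (mem_univ s) (mem_univ s')
  · intro s₀ _
    rw [nhdsWithin_univ]
    refine Fam_step hΛ hO hk s₀ (himm s₀) (hred s₀) hJ₁ (hJO s₀) ?_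
    intro l hl
    rcases hJ l hl with h | ⟨l₁, hl₁, m, hm, h⟩
    · left; exact fun s => h s s₀
    · right; exact ⟨l₁, hl₁, m, hm, h s₀⟩
  · rintro s₁ s₂ s₃ - - - ⟨H, f1, f2⟩ ⟨G, g1, g2⟩
    refine ⟨H.trans G, f1.trans g1, ?_⟩
    intro l hl
    rw [Equiv.trans_apply, f2 l hl, g2 l hl]
  · rintro s₁ s₂ - - ⟨H, f1, f2⟩
    refine ⟨H.symm, f1.symm, ?_⟩
    intro l hl
    rw [Equiv.symm_apply_eq, f2 l hl]

/-- cut off a family outside an open set of parameters -/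
theorem Fam_cut {k : ℝ → F → E} {U : Set F} {χ : F → ℝ} {C : Set F}
    (hk : ∀ s ∈ Icc (0 : ℝ) 1, ∀ y ∈ U, ContDiffAt ℝ ∞ (fun q : ℝ × F => k q.1 q.2) (s, y))
    (c1 : ContDiff ℝ ∞ χ) (c2 : IsClosed C) (c3 : C ⊆ U) (c4 : ∀ x ∉ C, χ x = 0) :
    ContDiff ℝ ∞ fun q : ℝ × F => χ q.2 • k (Real.smoothTransition q.1) q.2 := by
  have hσ : ∀ s, Real.smoothTransition s ∈ Icc (0 : ℝ) 1 := fun s =>
    ⟨Real.smoothTransition.nonneg s, Real.smoothTransition.le_one s⟩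
  rw [contDiff_iff_contDiffAt]
  rintro ⟨s, l⟩
  by_cases hl : l ∈ U
  · refine ContDiffAt.smul (c1.comp contDiff_snd).contDiffAt ?_
    have e1 : ContDiffAt ℝ ∞ (fun q : ℝ × F => (Real.smoothTransition q.1, q.2)) (s, l) :=
      ((Real.smoothTransition.contDiff.comp contDiff_fst).prodMk contDiff_snd).contDiffAt
    exact ContDiffAt.comp (s, l) (hk _ (hσ s) l hl) e1
  · have e1 : Cᶜ ∈ 𝓝 l := c2.isOpen_compl.mem_nhds fun hc => hl (c3 hc)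
    have e2 : ∀ᶠ q : ℝ × F in 𝓝 (s, l), q.2 ∈ Cᶜ :=
      (continuousAt_snd (p := (s, l))).eventually e1
    have e3 : (fun q : ℝ × F => χ q.2 • k (Real.smoothTransition q.1) q.2) =ᶠ[𝓝 (s, l)]
        fun _ => (0 : E) := by
      filter_upwards [e2] with q hq
      simp only [c4 _ hq, zero_smul]
    exact contDiffAt_const.congr_of_eventuallyEq e3

/-- **Isotopy extension for a family of embeddings** of a compact set `J` of parameters (mod `Λ`), which is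
constant on `J \ J₁` and stays in `O` on `J₁`. -/
theorem core_fam {Λ : AddSubgroup E} (hΛ : Lat Λ) {O : Set E} (hO : IsOpen O) {k : ℝ → F → E}
    {U J J₁ : Set F} (hU : IsOpen U) (hJ : IsCompact J) (hJU : J ⊆ U) (hJ₁ : IsCompact J₁) (hJ₁J : J₁ ⊆ J)
    (hk : ∀ s ∈ Icc (0 : ℝ) 1, ∀ y ∈ U, ContDiffAt ℝ ∞ (fun q : ℝ × F => k q.1 q.2) (s, y))
    (hend : ∀ s ∈ Icc (0 : ℝ) 1, ∀ y ∈ J, y ∉ J₁ → k s y = k 0 y)
    (hkO : ∀ s ∈ Icc (0 : ℝ) 1, ∀ y ∈ J₁, k s y ∈ O)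
    (himm : ∀ s ∈ Icc (0 : ℝ) 1, ∀ y ∈ J, ∀ v, fderiv ℝ (k s) y v = 0 → v = 0)
    (hinj : ∀ s ∈ Icc (0 : ℝ) 1, ∀ y ∈ J, ∀ y' ∈ J, ∀ m ∈ Λ, k s y = k s y' + m → y = y') :
    ∃ G : Equiv.Perm E, Move Λ O G ∧ ∀ y ∈ J, G (k 0 y) = k 1 y := by
  have hσ : ∀ s, Real.smoothTransition s ∈ Icc (0 : ℝ) 1 := fun s =>
    ⟨Real.smoothTransition.nonneg s, Real.smoothTransition.le_one s⟩
  obtain ⟨K, hK, hK1, hK2⟩ := exists_compact_between hJ hU hJU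
  obtain ⟨χ, C, c1, c2, c3, c4, c5, -⟩ := exists_cut hU hK hK2
  have hχ : ∀ l ∈ J, χ l = 1 := fun l hl => c5 l (interior_subset (hK1 hl))
  let k' : ℝ → F → E := fun s l => χ l • k (Real.smoothTransition s) l
  have hk'e : ∀ s, ∀ l ∈ J, k' s l = k (Real.smoothTransition s) l := by
    intro s l hl
    simp only [k', hχ l hl, one_smul]
  have hk' : ContDiff ℝ ∞ fun q : ℝ × F => k' q.1 q.2 := Fam_cut hk c1 c2.isClosed c3 c4
  have hder : ∀ s, ∀ l ∈ J, fderiv ℝ (k' s) l = fderiv ℝ (k (Real.smoothTransition s)) l := by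
    intro s l hl
    apply Filter.EventuallyEq.fderiv_eq
    filter_upwards [mem_interior_iff_mem_nhds.1 (hK1 hl)] with y hy
    simp only [k']
    rw [c5 y hy, one_smul]
  obtain ⟨G, f1, f2⟩ := Fam_steps hΛ hO hk' (J := J) (J₁ := J₁)
    (fun s l hl => by rw [hder s l hl]; exact himm _ (hσ s) l hl)
    (fun s₀ l₀ hl₀ => ⟨J, hJ, Subset.rfl,
      fun l hl => ⟨l, hl, 0, Λ.zero_mem, fun s => by rw [add_zero]⟩,
      fun l₁ hl₁ m hm he => by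
        rw [hk'e s₀ l₁ hl₁, hk'e s₀ l₀ hl₀] at he
        exact hinj _ (hσ s₀) l₁ hl₁ l₀ hl₀ m hm he⟩)
    hJ₁
    (fun s l hl => by rw [hk'e s l (hJ₁J hl)]; exact hkO _ (hσ s) l hl)
    (fun l hl => by
      by_cases hc : l ∈ J₁
      · right
        exact ⟨l, hc, 0, Λ.zero_mem, fun s => by rw [add_zero]⟩
      · left
        intro s s'
        rw [hk'e s l hl, hk'e s' l hl, hend _ (hσ s) l hl hc, hend _ (hσ s') l hl hc]) 0 1
  refine ⟨G, f1, ?_⟩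
  intro l hl
  have e1 := f2 l hl
  rw [hk'e 0 l hl, hk'e 1 l hl, Real.smoothTransition.zero, Real.smoothTransition.one] at e1
  exact e1

/-- **Isotopy extension for a family of embeddings with a periodic direction** `l` (mod 1): parameters
`(l, u)`, `l ∈ ℝ`, `u ∈ J`, `J` compact; constant for `u ∉ J₁`. -/
theorem core_famP {Λ : AddSubgroup E} (hΛ : Lat Λ) {O : Set E} (hO : IsOpen O) {k : ℝ → ℝ × F → E}
    {U J J₁ : Set F} (hU : IsOpen U) (hJ : IsCompact J) (hJU : J ⊆ U) (hJ₁ : IsCompact J₁) (hJ₁J : J₁ ⊆ J)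
    (hk : ∀ s ∈ Icc (0 : ℝ) 1, ∀ l, ∀ u ∈ U, ContDiffAt ℝ ∞ (fun q : ℝ × ℝ × F => k q.1 q.2) (s, l, u))
    {m₀ : E} (hm₀ : m₀ ∈ Λ) (hper : ∀ s ∈ Icc (0 : ℝ) 1, ∀ l, ∀ u ∈ U, k s (l + 1, u) = k s (l, u) + m₀)
    (hend : ∀ s ∈ Icc (0 : ℝ) 1, ∀ l, ∀ u ∈ J, u ∉ J₁ → k s (l, u) = k 0 (l, u))
    (hkO : ∀ s ∈ Icc (0 : ℝ) 1, ∀ l, ∀ u ∈ J₁, k s (l, u) ∈ O)
    (himm : ∀ s ∈ Icc (0 : ℝ) 1, ∀ l, ∀ u ∈ J, ∀ v, fderiv ℝ (k s) (l, u) v = 0 → v = 0)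
    (hinj : ∀ s ∈ Icc (0 : ℝ) 1, ∀ l, ∀ u ∈ J, ∀ l', ∀ u' ∈ J, ∀ m ∈ Λ,
      k s (l, u) = k s (l', u') + m → u = u' ∧ ∃ p : ℤ, l = l' + p) :
    ∃ G : Equiv.Perm E, Move Λ O G ∧ ∀ l, ∀ u ∈ J, G (k 0 (l, u)) = k 1 (l, u) := by
  have hσ : ∀ s, Real.smoothTransition s ∈ Icc (0 : ℝ) 1 := fun s =>
    ⟨Real.smoothTransition.nonneg s, Real.smoothTransition.le_one s⟩
  obtain ⟨K, hK, hK1, hK2⟩ := exists_compact_between hJ hU hJU
  obtain ⟨χ, C, c1, c2, c3, c4, c5, -⟩ := exists_cut hU hK hK2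
  have hχ : ∀ l ∈ J, χ l = 1 := fun l hl => c5 l (interior_subset (hK1 hl))
  let k' : ℝ → ℝ × F → E := fun s l => χ l.2 • k (Real.smoothTransition s) l
  have hk'e : ∀ s l, ∀ u ∈ J, k' s (l, u) = k (Real.smoothTransition s) (l, u) := by
    intro s l u hu
    simp only [k', hχ u hu, one_smul]
  have hk' : ContDiff ℝ ∞ fun q : ℝ × (ℝ × F) => k' q.1 q.2 :=
    Fam_cut (F := ℝ × F) (U := univ ×ˢ U) (χ := fun q => χ q.2) (C := univ ×ˢ C)
      (fun s hs y hy => hk s hs y.1 y.2 hy.2) (c1.comp contDiff_snd)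
      (isClosed_univ.prod c2.isClosed) (Set.prod_mono Subset.rfl c3)
      (fun x hx => c4 _ fun hc => hx ⟨trivial, hc⟩)
  have hder : ∀ s l, ∀ u ∈ J, fderiv ℝ (k' s) (l, u) = fderiv ℝ (k (Real.smoothTransition s)) (l, u) := by
    intro s l u hu
    apply Filter.EventuallyEq.fderiv_eq
    have e1 : ∀ᶠ q : ℝ × F in 𝓝 (l, u), q.2 ∈ K :=
      (continuousAt_snd (p := (l, u))).eventually (mem_interior_iff_mem_nhds.1 (hK1 hu))
    filter_upwards [e1] with y hy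
    simp only [k']
    rw [c5 y.2 hy, one_smul]
  have hpz : ∀ s, ∀ l, ∀ u ∈ J, ∀ p : ℤ, k' s (l + p, u) = k' s (l, u) + p • m₀ := by
    intro s l u hu p
    rw [hk'e s _ u hu, hk'e s _ u hu]
    induction p using Int.induction_on with
    | zero => simp
    | succ i ih =>
      have := hper _ (hσ s) (l + i) u (hJU hu)
      push_cast at ih ⊢
      rw [← add_assoc, this, ih, add_smul, one_smul, add_assoc]
    | pred i ih =>
      have := hper _ (hσ s) (l + (-i - 1)) u (hJU hu)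
      have e : l + (-i - 1) + 1 = l + -(i : ℝ) := by ring
      rw [e] at this
      push_cast at ih ⊢
      have h2 : k (Real.smoothTransition s) (l + (-(i : ℝ) - 1), u)
          = k (Real.smoothTransition s) (l + -(i : ℝ), u) - m₀ := by
        rw [this]; abel
      rw [h2, ih, sub_smul, one_smul]
      abel
  have hred : ∀ l₀ l : ℝ, ∀ u ∈ J, ∃ l₁ ∈ Icc (l₀ - 1 / 2) (l₀ + 1 / 2), ∃ m ∈ Λ,
      ∀ s, k' s (l, u) = k' s (l₁, u) + m := by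
    intro l₀ l u hu
    refine ⟨l - round (l - l₀), ?_, round (l - l₀) • m₀, Λ.zsmul_mem hm₀ _, ?_⟩
    · have := abs_sub_round (l - l₀)
      rw [abs_le] at this
      constructor <;> linarith [this.1, this.2]
    · intro s
      rw [← hpz s _ u hu]
      congr 2
      ring
  obtain ⟨G, f1, f2⟩ := Fam_steps hΛ hO hk' (J := univ ×ˢ J)
    (J₁ := Icc (1 / 2 - 1 / 2) (1 / 2 + 1 / 2) ×ˢ J₁)
    (fun s l hl => by rw [hder s l.1 l.2 hl.2]; exact himm _ (hσ s) l.1 l.2 hl.2)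
    (fun s₀ l₀ hl₀ => ⟨Icc (l₀.1 - 1 / 2) (l₀.1 + 1 / 2) ×ˢ J, isCompact_Icc.prod hJ,
      Set.prod_mono (subset_univ _) Subset.rfl,
      fun l hl => by
        obtain ⟨l₁, h1, m, h2, h3⟩ := hred l₀.1 l.1 l.2 hl.2
        exact ⟨(l₁, l.2), ⟨h1, hl.2⟩, m, h2, h3⟩,
      fun l₁ hl₁ m hm he => by
        have he' : k' s₀ (l₁.1, l₁.2) = k' s₀ (l₀.1, l₀.2) + m := he
        rw [hk'e s₀ _ _ hl₁.2, hk'e s₀ _ _ hl₀.2] at he'
        obtain ⟨e1, p, hp⟩ := hinj _ (hσ s₀) l₁.1 l₁.2 hl₁.2 l₀.1 l₀.2 hl₀.2 m hm he'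
        have h4 : |(p : ℝ)| < 1 := by
          have h5 : (p : ℝ) = l₁.1 - l₀.1 := by rw [hp]; ring
          rw [h5, abs_lt]
          constructor <;> linarith [hl₁.1.1, hl₁.1.2]
        have h5 : |p| < 1 := by exact_mod_cast h4
        have h6 := Int.abs_lt_one_iff.mp h5
        rw [h6, Int.cast_zero, add_zero] at hp
        exact Prod.ext hp e1⟩)
    (isCompact_Icc.prod hJ₁)
    (fun s l hl => by
      have : k' s (l.1, l.2) ∈ O := by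
        rw [hk'e s _ _ (hJ₁J hl.2)]; exact hkO _ (hσ s) l.1 l.2 hl.2
      exact this)
    (fun l hl => by
      by_cases hc : l.2 ∈ J₁
      · right
        obtain ⟨l₁, h1, m, h2, h3⟩ := hred (1 / 2) l.1 l.2 hl.2
        exact ⟨(l₁, l.2), ⟨h1, hc⟩, m, h2, h3⟩
      · left
        intro s s'
        have e1 : k' s (l.1, l.2) = k' s' (l.1, l.2) := by
          rw [hk'e s _ _ hl.2, hk'e s' _ _ hl.2, hend _ (hσ s) l.1 l.2 hl.2 hc,
            hend _ (hσ s') l.1 l.2 hl.2 hc]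
        exact e1) 0 1
  refine ⟨G, f1, ?_⟩
  intro l u hu
  have e1 := f2 (l, u) ⟨trivial, hu⟩
  rw [hk'e 0 l u hu, hk'e 1 l u hu, Real.smoothTransition.zero, Real.smoothTransition.one] at e1
  exact e1

end Pool.Agent.ISO
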