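import Pool.Agent.ISO.Small
import Pool.Agent.CSG.LDb

/-!
# ISO/Interp: a smooth vector field with prescribed values on a curve
-/

open scoped Manifold ContDiff Topology NNReal
open Set Filter

namespace Pool.Agent.ISO

section closed
variable {E : Type*} [NormedAddCommGroup E]

theorem Lat.isClosed_sub {Λ : AddSubgroup E} (h : Lat Λ) {S : Set E} (hS : ∀ m ∈ S, m ∈ Λ) : IsClosed S := by
  apply isClosed_of_closure_subset
  intro x hx
  have h1 : IsClosed {m : E | m ∈ S ∧ ‖m‖ ≤ ‖x‖ + 1} :=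
    ((h (‖x‖ + 1)).subset fun m hm => ⟨hS m hm.1, hm.2⟩).isClosed
  have h2 : x ∈ closure {m : E | m ∈ S ∧ ‖m‖ ≤ ‖x‖ + 1} := by
    rw [Metric.mem_closure_iff] at hx ⊢
    intro ε hε
    obtain ⟨b, hb, hd⟩ := hx (min ε 1) (lt_min hε one_pos)
    refine ⟨b, ⟨hb, ?_⟩, lt_of_lt_of_le hd (min_le_left _ _)⟩
    have h3 : dist x b < 1 := lt_of_lt_of_le hd (min_le_right _ _)
    rw [dist_comm, dist_eq_norm] at h3
    have h4 : ‖b‖ ≤ ‖b - x‖ + ‖x‖ := by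
      have := norm_add_le (b - x) x
      simpa using this
    linarith
  exact (h1.closure_eq ▸ h2).1

open Pointwise in
theorem Lat.isClosed_add_sub {Λ : AddSubgroup E} (h : Lat Λ) {S : Set E} (hS : ∀ m ∈ S, m ∈ Λ) {C : Set E}
    (hC : IsCompact C) : IsClosed {x : E | ∃ c ∈ C, ∃ m ∈ S, x = c + m} := by
  have h1 : {x : E | ∃ c ∈ C, ∃ m ∈ S, x = c + m} = C + S := by
    ext x
    rw [Set.mem_add]
    constructor
    · rintro ⟨c, hc, m, hm, rfl⟩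
      exact ⟨c, hc, m, hm, rfl⟩
    · rintro ⟨c, hc, m, hm, rfl⟩
      exact ⟨c, hc, m, hm, rfl⟩
  rw [h1]
  exact (h.isClosed_sub hS).add_left_of_isCompact hC

end closed

variable {E : Type*} [NormedAddCommGroup E] [NormedSpace ℝ E] [FiniteDimensional ℝ E]

theorem interp {Λ : AddSubgroup E} (hΛ : Lat Λ) {k : ℝ → E} (hk : ContDiff ℝ ∞ k) {J : Set ℝ}
    {f : ℝ × ℝ → E} (hf : ContDiff ℝ ∞ f) (himm : ∀ l ∈ J, deriv k l ≠ 0)
    (hred : ∀ l₀ ∈ J, ∃ J₀ : Set ℝ, IsCompact J₀ ∧ J₀ ⊆ J ∧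
      (∀ l ∈ J, ∃ l₁ ∈ J₀, (∃ m ∈ Λ, k l = k l₁ + m) ∧ ∀ s, f (s, l) = f (s, l₁)) ∧
      ∀ l₁ ∈ J₀, ∀ m ∈ Λ, k l₁ = k l₀ + m → l₁ = l₀) :
    ∃ G : ℝ × E → E, ContDiff ℝ ∞ G ∧ ∀ s, ∀ l ∈ J, ∀ m ∈ Λ, G (s, k l + m) = f (s, l) := by
  let T : ℝ × E → Set E := fun q => {y | ∀ l ∈ J, ∀ m ∈ Λ, q.2 = k l + m → y = f (q.1, l)}
  have hconv : ∀ q, Convex ℝ (T q) := by
    intro q y hy y' hy' a b _ _ hab l hl m hm he
    rw [hy l hl m hm he, hy' l hl m hm he, ← add_smul, hab, one_smul]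
  have hloc : ∀ q : ℝ × E, ∃ U ∈ 𝓝 q, ∃ g : ℝ × E → E,
      ContMDiffOn 𝓘(ℝ, ℝ × E) 𝓘(ℝ, E) ∞ g U ∧ ∀ y ∈ U, g y ∈ T y := by
    rintro ⟨s₀, x₀⟩
    by_cases hA : ∃ l ∈ J, ∃ m ∈ Λ, x₀ = k l + m
    · obtain ⟨l₀, hl₀, m₀, hm₀, hx₀⟩ := hA
      obtain ⟨J₀, hJ₀, hJJ, hJa, hJb⟩ := hred l₀ hl₀
      -- a linear form
      obtain ⟨α, -, hα⟩ := exists_dual_vector ℝ (deriv k l₀) (norm_ne_zero_iff.2 (himm l₀ hl₀))
      have hα0 : α (deriv k l₀) ≠ 0 := by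
        rw [hα]; simpa using himm l₀ hl₀
      have hφ : ContDiff ℝ ∞ fun l => α (k l) := α.contDiff.comp hk
      have hld : IsLocalDiffeomorphAt 𝓘(ℝ, ℝ) 𝓘(ℝ, ℝ) ∞ (fun l => α (k l)) l₀ := by
        refine CSG.ld_of_fderiv (Eventually.of_forall fun y => hφ.contDiffAt) rfl ?_
        intro v hv
        have h1 : HasDerivAt k (deriv k l₀) l₀ := (hk.differentiable (by simp) l₀).hasDerivAt
        have h2 : HasDerivAt (fun l => α (k l)) (α (deriv k l₀)) l₀ :=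
          α.hasFDerivAt.comp_hasDerivAt l₀ h1
        rw [h2.hasFDerivAt.fderiv] at hv
        simpa [hα0] using hv
      obtain ⟨Φ, hΦ, hΦe⟩ := hld
      -- the bad sets
      let Z : Set E := {x | ∃ c ∈ k '' (J₀ ∩ Φ.sourceᶜ), ∃ m ∈ (Λ : Set E), x = c + m}
      let Z' : Set E := {x | ∃ c ∈ k '' J₀, ∃ m ∈ {m : E | m ∈ Λ ∧ m ≠ m₀}, x = c + m}
      have hZ : IsClosed Z := by
        refine hΛ.isClosed_add_sub (fun m hm => hm) ?_
        exact (hJ₀.inter_right Φ.open_source.isClosed_compl).image hk.continuous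
      have hZ' : IsClosed Z' :=
        hΛ.isClosed_add_sub (fun m hm => hm.1) (hJ₀.image hk.continuous)
      have hxZ : x₀ ∉ Z := by
        rintro ⟨_, ⟨l₁, ⟨h1, h2⟩, rfl⟩, m, hm, he⟩
        apply h2
        have : l₁ = l₀ := by
          apply hJb l₁ h1 (m₀ - m) (Λ.sub_mem hm₀ hm)
          rw [hx₀] at he
          have : k l₁ = k l₁ + m - m := by abel
          rw [this, ← he]; abel
        rw [this]; exact hΦ
      have hxZ' : x₀ ∉ Z' := by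
        rintro ⟨_, ⟨l₁, h1, rfl⟩, m, ⟨hm, hm'⟩, he⟩
        apply hm'
        have : l₁ = l₀ := by
          apply hJb l₁ h1 (m₀ - m) (Λ.sub_mem hm₀ hm)
          rw [hx₀] at he
          have : k l₁ = k l₁ + m - m := by abel
          rw [this, ← he]; abel
        rw [this, hx₀] at he
        exact (add_left_cancel he).symm
      let L : E → ℝ := fun x => α (x - m₀)
      have hLc : Continuous L := α.continuous.comp (continuous_id.sub continuous_const)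
      have hLs : ContDiff ℝ ∞ L := α.contDiff.comp (contDiff_id.sub contDiff_const)
      have hV : IsOpen (L ⁻¹' Φ.target ∩ (Zᶜ ∩ Z'ᶜ)) :=
        (Φ.open_target.preimage hLc).inter (hZ.isOpen_compl.inter hZ'.isOpen_compl)
      have hxL : L x₀ ∈ Φ.target := by
        have : L x₀ = Φ l₀ := by
          rw [← hΦe hΦ]
          simp [L, hx₀]
        rw [this]
        exact Φ.map_source hΦ
      refine ⟨univ ×ˢ (L ⁻¹' Φ.target ∩ (Zᶜ ∩ Z'ᶜ)),
        prod_mem_nhds univ_mem (hV.mem_nhds ⟨hxL, hxZ, hxZ'⟩),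
        fun q => f (q.1, Φ.symm (L q.2)), ?_, ?_⟩
      · rintro ⟨s, x⟩ ⟨-, hx, -⟩
        have h1 : ContMDiffAt 𝓘(ℝ, ℝ) 𝓘(ℝ, ℝ) ∞ Φ.symm (L x) :=
          (Φ.contMDiffOn_invFun (L x) hx).contMDiffAt (Φ.open_target.mem_nhds hx)
        have h2 : ContDiffAt ℝ ∞ Φ.symm (L x) := contMDiffAt_iff_contDiffAt.1 h1
        have h3 : ContDiffAt ℝ ∞ (fun q : ℝ × E => Φ.symm (L q.2)) (s, x) := by
          have h4 : ContDiffAt ℝ ∞ (fun q : ℝ × E => L q.2) (s, x) :=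
            (hLs.comp contDiff_snd).contDiffAt
          exact ContDiffAt.comp (s, x) h2 h4
        have h5 : ContDiffAt ℝ ∞ (fun q : ℝ × E => f (q.1, Φ.symm (L q.2))) (s, x) :=
          ContDiffAt.comp (s, x) hf.contDiffAt (contDiffAt_fst.prodMk h3)
        exact h5.contMDiffAt.contMDiffWithinAt
      · rintro ⟨s, x⟩ ⟨-, hx, hx1, hx2⟩ l hl m hm he
        simp only at he
        obtain ⟨l₁, hl₁, ⟨m₁, hm₁, hkl⟩, hfl⟩ := hJa l hl
        rw [hfl s]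
        have he' : x = k l₁ + (m₁ + m) := by rw [he, hkl]; abel
        have hm' : m₁ + m = m₀ := by
          by_contra hc
          exact hx2 ⟨k l₁, ⟨l₁, hl₁, rfl⟩, m₁ + m, ⟨Λ.add_mem hm₁ hm, hc⟩, he'⟩
        have hs : l₁ ∈ Φ.source := by
          by_contra hc
          exact hx1 ⟨k l₁, ⟨l₁, ⟨hl₁, hc⟩, rfl⟩, m₁ + m, Λ.add_mem hm₁ hm, he'⟩
        have hL : L x = Φ l₁ := by
          rw [← hΦe hs]
          simp only [L]
          rw [he', hm', add_sub_cancel_right]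
        show f (s, Φ.symm (L x)) = _
        rw [hL]
        congr 2
        exact Φ.left_inv hs
    · by_cases hJ : J.Nonempty
      · obtain ⟨l₀, hl₀⟩ := hJ
        obtain ⟨J₀, hJ₀, hJJ, hJa, hJb⟩ := hred l₀ hl₀
        have hZ : IsClosed {x : E | ∃ c ∈ k '' J₀, ∃ m ∈ (Λ : Set E), x = c + m} :=
          hΛ.isClosed_add_sub (fun m hm => hm) (hJ₀.image hk.continuous)
        have hZ2 : IsClosed {x : E | ∃ l ∈ J, ∃ m ∈ Λ, x = k l + m} := by
          have : {x : E | ∃ l ∈ J, ∃ m ∈ Λ, x = k l + m} =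
              {x : E | ∃ c ∈ k '' J₀, ∃ m ∈ (Λ : Set E), x = c + m} := by
            ext x
            constructor
            · rintro ⟨l, hl, m, hm, rfl⟩
              obtain ⟨l₁, hl₁, ⟨m₁, hm₁, hkl⟩, -⟩ := hJa l hl
              exact ⟨k l₁, ⟨l₁, hl₁, rfl⟩, m₁ + m, Λ.add_mem hm₁ hm, by rw [hkl]; abel⟩
            · rintro ⟨_, ⟨l, hl, rfl⟩, m, hm, rfl⟩
              exact ⟨l, hJJ hl, m, hm, rfl⟩
          rw [this]; exact hZ
        refine ⟨univ ×ˢ {x : E | ∃ l ∈ J, ∃ m ∈ Λ, x = k l + m}ᶜ,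
          prod_mem_nhds univ_mem (hZ2.isOpen_compl.mem_nhds hA), fun _ => 0, contMDiffOn_const, ?_⟩
        rintro ⟨s, x⟩ ⟨-, hx⟩ l hl m hm he
        exact absurd ⟨l, hl, m, hm, he⟩ hx
      · refine ⟨univ, univ_mem, fun _ => 0, contMDiffOn_const, ?_⟩
        rintro ⟨s, x⟩ - l hl
        exact absurd ⟨l, hl⟩ hJ
  obtain ⟨g, hg⟩ := exists_contMDiffMap_forall_mem_convex_of_local (I := 𝓘(ℝ, ℝ × E)) (n := (⊤ : ℕ∞)) hconv
    (by exact hloc)
  refine ⟨g, g.contMDiff.contDiff, ?_⟩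
  intro s l hl m hm
  exact hg (s, k l + m) l hl m hm rfl

end Pool.Agent.ISO
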